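import Mathlib

namespace Pool.Agent.LinFor.Pet

open SimpleGraph

/-- A set with a fixed point free involution has even size. -/
theorem even_ncard_of_invol {X : Type*} [Finite X] (e : X → X) (he : ∀ x, e (e x) = x)
    (S : Set X) (hne : ∀ x ∈ S, e x ≠ x) (hS : ∀ x ∈ S, e x ∈ S) : Even S.ncard := by
  classical
  have := Fintype.ofFinite X
  rw [Set.ncard_eq_toFinset_card']
  have h : ∑ _x ∈ S.toFinset, (1 : ZMod 2) = 0 := by
    refine Finset.sum_involution (fun a _ => e a) ?_ ?_ ?_ ?_
    · intro a _
      decide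
    · intro a ha _
      exact hne a (by simpa using ha)
    · intro a ha
      simpa using hS a (by simpa using ha)
    · intro a _
      exact he a
  simp only [Finset.sum_const, nsmul_eq_mul, mul_one] at h
  exact (ZMod.natCast_eq_zero_iff_even).1 h

theorem ncard_fiber {Q X : Type*} [Finite Q] [Finite X] (p : X → Q)
    (h3 : ∀ q, {x | p x = q}.ncard = 3) (A : Set Q) : {x | p x ∈ A}.ncard = 3 * A.ncard := by
  classical
  have := Fintype.ofFinite X
  have := Fintype.ofFinite Q
  have h := Finset.card_eq_sum_card_fiberwise (f := p) (s := {x | p x ∈ A}.toFinset)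
    (t := A.toFinset) (by
      intro x hx
      simpa using hx)
  rw [Set.ncard_eq_toFinset_card', h, Set.ncard_eq_toFinset_card' A, mul_comm, ← smul_eq_mul,
    ← Finset.sum_const]
  refine Finset.sum_congr rfl ?_
  intro q hq
  rw [← h3 q, Set.ncard_eq_toFinset_card']
  congr 1
  ext x
  simp only [Finset.mem_filter, Set.mem_toFinset, Set.mem_ofPred_eq]
  constructor
  · rintro ⟨_, h⟩
    exact h
  · intro h
    have hq' : q ∈ A := by simpa using hq
    exact ⟨by rw [h]; exact hq', h⟩

/-- Petersen's theorem for cubic multigraphs: `Q` is the set of vertices, `X` the set of darts,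
`p` maps a dart to its starting point and `e` reverses darts. -/
theorem petersen {Q X : Type*} [Finite Q] [Finite X] (p : X → Q) (e : X → X)
    (he : ∀ x, e (e x) = x) (hloop : ∀ x, p (e x) ≠ p x)
    (h3 : ∀ q, {x | p x = q}.ncard = 3)
    (hcut : ∀ A : Set Q, {x | p x ∈ A ∧ p (e x) ∉ A}.ncard ≠ 1) :
    ∃ f : Q → X, (∀ q, p (f q) = q) ∧ ∀ q, f (p (e (f q))) = e (f q) := by
  classical
  have := Fintype.ofFinite X
  have := Fintype.ofFinite Q
  let H : SimpleGraph Q :=
    { Adj := fun q r => q ≠ r ∧ ∃ x, p x = q ∧ p (e x) = r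
      symm := ⟨by
        rintro q r ⟨hqr, x, h1, h2⟩
        exact ⟨hqr.symm, e x, h2, by rw [he]; exact h1⟩⟩
      loopless := ⟨by
        rintro q ⟨h, _⟩
        exact h rfl⟩ }
  have hodd : ∀ A : Set Q, Odd A.ncard → 3 ≤ {x | p x ∈ A ∧ p (e x) ∉ A}.ncard := by
    intro A hA
    have h1 : {x | p x ∈ A}.ncard = 3 * A.ncard := ncard_fiber p h3 A
    have h2 : Even {x | p x ∈ A ∧ p (e x) ∈ A}.ncard := by
      apply even_ncard_of_invol e he
      · intro x _ h
        exact hloop x (by rw [h])
      · rintro x ⟨ha, hb⟩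
        exact ⟨hb, by rw [he]; exact ha⟩
    have h4 : {x | p x ∈ A}.ncard =
        {x | p x ∈ A ∧ p (e x) ∈ A}.ncard + {x | p x ∈ A ∧ p (e x) ∉ A}.ncard := by
      rw [← Set.ncard_union_eq]
      · congr 1
        ext x
        simp only [Set.mem_ofPred_eq, Set.mem_union]
        tauto
      · rw [Set.disjoint_left]
        rintro x ⟨_, h⟩ ⟨_, h'⟩
        exact h' h
    have h5 := hcut A
    obtain ⟨k, hk⟩ := hA
    obtain ⟨l, hl⟩ := h2
    omega
  have hM : ∃ M : H.Subgraph, M.IsPerfectMatching := by
    rw [tutte]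
    intro u hu
    unfold IsTutteViolator at hu
    set K := ((⊤ : H.Subgraph).deleteVerts u).coe with hK
    have : Fintype K.ConnectedComponent := Fintype.ofFinite _
    let A : K.ConnectedComponent → Set Q := fun c => Subtype.val '' c.supp
    let D : K.ConnectedComponent → Finset X := fun c => {x | p x ∈ A c ∧ p (e x) ∉ A c}.toFinset
    have hAc : ∀ c, (A c).ncard = c.supp.ncard := fun c =>
      Set.ncard_image_of_injective _ Subtype.val_injective
    have hDu : ∀ c x, x ∈ D c → p (e x) ∈ u := by
      intro c x hx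
      simp only [D, Set.mem_toFinset, Set.mem_ofPred_eq] at hx
      obtain ⟨⟨⟨q, hq⟩, hqc, hqx⟩, hx2⟩ := hx
      by_contra hcon
      apply hx2
      have hq2 : q ∉ u := by
        simpa using hq
      have hv : p (e x) ∈ ((⊤ : H.Subgraph).deleteVerts u).verts := by
        simpa using hcon
      refine ⟨⟨p (e x), hv⟩, ?_, rfl⟩
      have hadj : K.Adj ⟨q, hq⟩ ⟨p (e x), hv⟩ := by
        rw [hK, Subgraph.coe_adj, Subgraph.deleteVerts_adj]
        simp only at hqx
        refine ⟨trivial, hq2, trivial, hcon, ?_⟩
        rw [Subgraph.top_adj]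
        refine ⟨?_, x, hqx.symm, rfl⟩
        show q ≠ p (e x)
        intro h
        exact hloop x (by rw [← h, hqx])
      rw [ConnectedComponent.mem_supp_iff] at hqc ⊢
      rw [← hqc]
      exact (ConnectedComponent.connectedComponentMk_eq_of_adj hadj).symm
    have hdisj : ∀ c c', c ≠ c' → Disjoint (D c) (D c') := by
      intro c c' hcc
      rw [Finset.disjoint_left]
      intro x hx hx'
      simp only [D, Set.mem_toFinset, Set.mem_ofPred_eq] at hx hx'
      obtain ⟨⟨⟨q, hq⟩, hqc, hqx⟩, _⟩ := hx
      obtain ⟨⟨⟨q', hq'⟩, hqc', hqx'⟩, _⟩ := hx'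
      apply hcc
      rw [ConnectedComponent.mem_supp_iff] at hqc hqc'
      rw [← hqc, ← hqc']
      have : q = q' := by
        simp only at hqx hqx'
        rw [hqx, hqx']
      subst this
      rfl
    have h1 : 3 * K.oddComponents.ncard ≤ ((K.oddComponents.toFinset).biUnion D).card := by
      rw [Finset.card_biUnion (fun c _ c' _ h => hdisj c c' h), Set.ncard_eq_toFinset_card',
        mul_comm, ← smul_eq_mul, ← Finset.sum_const]
      apply Finset.sum_le_sum
      intro c hc
      have hc' : Odd c.supp.ncard := by simpa using hc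
      have := hodd (A c) (by rw [hAc]; exact hc')
      rwa [Set.ncard_eq_toFinset_card'] at this
    have h2 : ((K.oddComponents.toFinset).biUnion D).card ≤ {x | p x ∈ u}.ncard := by
      rw [Set.ncard_eq_toFinset_card']
      apply Finset.card_le_card_of_injOn e
      · intro x hx
        simp only [Finset.coe_biUnion, Set.mem_iUnion] at hx
        obtain ⟨c, _, hx⟩ := hx
        simpa using hDu c x (by simpa using hx)
      · intro x _ y _ hxy
        have := congrArg e hxy
        rwa [he, he] at this
    rw [ncard_fiber p h3] at h2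
    omega
  obtain ⟨M, hM⟩ := hM
  rw [Subgraph.isPerfectMatching_iff] at hM
  choose m hm hmu using hM
  have hm' : ∀ q, M.Adj q (m q) := hm
  have hmu' : ∀ q r, M.Adj q r → r = m q := hmu
  have hmm : ∀ q, m (m q) = q := fun q => (hmu' (m q) q (hm' q).symm).symm
  have hmne : ∀ q, m q ≠ q := by
    intro q h
    have := (hm' q).adj_sub
    rw [h] at this
    exact this.1 rfl
  have hg : ∀ q, ∃ x, p x = q ∧ p (e x) = m q := fun q => ((hm' q).adj_sub).2
  choose g hg1 hg2 using hg
  obtain ⟨i, hi⟩ : ∃ i : Q → ℕ, Function.Injective i :=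
    ⟨fun q => (Fintype.equivFin Q q : ℕ), fun a b h =>
      (Fintype.equivFin Q).injective (Fin.ext h)⟩
  refine ⟨fun q => if i q < i (m q) then g q else e (g (m q)), ?_, ?_⟩
  · intro q
    dsimp only
    split_ifs with h
    · exact hg1 q
    · rw [hg2, hmm]
  · intro q
    dsimp only
    by_cases h : i q < i (m q)
    · rw [if_pos h, hg2, hmm, if_neg (by omega)]
    · have hne : i q ≠ i (m q) := fun h' => hmne q (hi h').symm
      rw [if_neg h, he, hg1, hmm, if_pos (by omega)]

/-- In a cubic graph without bridges in which every vertex lies in exactly one triangle there is a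
perfect matching containing an edge of every triangle. -/
theorem pet_match {X : Type*} [Finite X] {G : SimpleGraph X}
    (hG : ∀ v, (G.neighborSet v).encard = 3) (hbr : ∀ e ∈ G.edgeSet, ¬ G.IsBridge e)
    (htri : ∀ x, ∃ y z, G.Adj x y ∧ G.Adj x z ∧ G.Adj y z)
    (hone : ∀ x y z w, G.Adj x y → G.Adj x z → G.Adj y z → G.Adj x w → G.Adj y w → z = w) :
    ∃ N : G.Subgraph, N.IsPerfectMatching ∧
      ∀ x y z, G.Adj x y → G.Adj x z → G.Adj y z → N.Adj x y ∨ N.Adj x z ∨ N.Adj y z := by
  classical
  -- the three neighbours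
  have h1 : ∀ x, ∃ a b w, G.Adj x a ∧ G.Adj x b ∧ G.Adj x w ∧ G.Adj a b ∧ a ≠ w ∧ b ≠ w ∧
      ∀ y, G.Adj x y → y = a ∨ y = b ∨ y = w := by
    intro x
    obtain ⟨a, b, ha, hb, hab⟩ := htri x
    obtain ⟨y1, y2, y3, h12, h13, h23, hS⟩ := Set.encard_eq_three.1 (hG x)
    have hmem : ∀ y, G.Adj x y ↔ y = y1 ∨ y = y2 ∨ y = y3 := by
      intro y
      rw [← mem_neighborSet, hS]
      simp
    have hne := hab.ne
    have ha' := (hmem a).1 ha
    have hb' := (hmem b).1 hb
    have key : ∃ w, G.Adj x w ∧ a ≠ w ∧ b ≠ w ∧ ∀ y, G.Adj x y → y = a ∨ y = b ∨ y = w := by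
      rcases ha' with rfl | rfl | rfl <;> rcases hb' with rfl | rfl | rfl <;>
        first
        | exact absurd rfl hne
        | exact ⟨y1, (hmem _).2 (by tauto), by tauto, by tauto, fun y hy => by
            have := (hmem y).1 hy
            tauto⟩
        | exact ⟨y2, (hmem _).2 (by tauto), by tauto, by tauto, fun y hy => by
            have := (hmem y).1 hy
            tauto⟩
        | exact ⟨y3, (hmem _).2 (by tauto), by tauto, by tauto, fun y hy => by
            have := (hmem y).1 hy
            tauto⟩
    obtain ⟨w, hw1, hw2, hw3, hw4⟩ := key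
    exact ⟨a, b, w, ha, hb, hw1, hab, hw2, hw3, hw4⟩
  choose a b e ha hb he hab hae hbe hall using h1
  -- the outer edge lies in no triangle
  have hout : ∀ x z, G.Adj x z → ¬ G.Adj (e x) z := by
    intro x z hz hez
    rcases hall x z hz with h | h | h
    · subst h
      exact hbe x (hone x (a x) (b x) (e x) (ha x) (hb x) (hab x) (he x) hez.symm)
    · subst h
      exact hae x (hone x (b x) (a x) (e x) (hb x) (ha x) (hab x).symm (he x) hez.symm)
    · subst h
      exact G.loopless.irrefl _ hez
  have hee : ∀ x, e (e x) = x := by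
    intro x
    rcases hall (e x) x (he x).symm with h | h | h
    · exfalso
      have h5 : G.Adj x (b (e x)) := by
        have h6 := hab (e x)
        rw [← h] at h6
        exact h6
      exact hout x (b (e x)) h5 (hb (e x))
    · exfalso
      have h5 : G.Adj x (a (e x)) := by
        have h6 := (hab (e x)).symm
        rw [← h] at h6
        exact h6
      exact hout x (a (e x)) h5 (ha (e x))
    · exact h.symm
  have hab' : ∀ x y z, G.Adj x y → G.Adj x z → G.Adj y z →
      (y = a x ∧ z = b x) ∨ (y = b x ∧ z = a x) := by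
    intro x y z hy hz hyz
    have hy' : y ≠ e x := by
      rintro rfl
      exact hout x z hz hyz
    have hz' : z ≠ e x := by
      rintro rfl
      exact hout x y hy hyz.symm
    have := hyz.ne
    rcases hall x y hy with h | h | h <;> rcases hall x z hz with h' | h' | h' <;> subst h <;>
      subst h' <;> tauto
  -- the relation being in the same triangle
  let T : X → X → Prop := fun x y => y = x ∨ y = a x ∨ y = b x
  have hTiff : ∀ x y, T x y ↔ y = x ∨ (G.Adj x y ∧ ∃ z, G.Adj x z ∧ G.Adj y z) := by
    intro x y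
    constructor
    · rintro (h | h | h)
      · exact Or.inl h
      · subst h
        exact Or.inr ⟨ha x, b x, hb x, hab x⟩
      · subst h
        exact Or.inr ⟨hb x, a x, ha x, (hab x).symm⟩
    · rintro (h | ⟨h, z, h1, h2⟩)
      · exact Or.inl h
      · rcases hab' x y z h h1 h2 with h | h
        · exact Or.inr (Or.inl h.1)
        · exact Or.inr (Or.inr h.1)
  have hTs : ∀ x y, T x y → T y x := by
    intro x y h
    rw [hTiff] at h ⊢
    rcases h with h | ⟨h, z, h1, h2⟩
    · exact Or.inl h.symm
    · exact Or.inr ⟨h.symm, z, h2, h1⟩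
  have hTt : ∀ x y z, T x y → T y z → T x z := by
    intro x y z hxy hyz
    rw [hTiff] at hxy
    rcases hxy with h | ⟨h, s, h1, h2⟩
    · subst h
      exact hyz
    · rcases hab' y x s h.symm h2 h1 with h3 | h3
      · rcases hyz with h4 | h4 | h4
        · subst h4
          exact (hTiff _ _).2 (Or.inr ⟨h, s, h1, h2⟩)
        · left
          rw [h4, h3.1]
        · rw [hTiff]
          right
          rw [h4, ← h3.2]
          exact ⟨h1, y, h, h2.symm⟩
      · rcases hyz with h4 | h4 | h4
        · subst h4
          exact (hTiff _ _).2 (Or.inr ⟨h, s, h1, h2⟩)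
        · rw [hTiff]
          right
          rw [h4, ← h3.2]
          exact ⟨h1, y, h, h2.symm⟩
        · left
          rw [h4, h3.1]
  let st : Setoid X := ⟨T, fun x => Or.inl rfl, fun {x y} h => hTs x y h,
    fun {x y z} h h' => hTt x y z h h'⟩
  let Q := Quotient st
  let p : X → Q := fun x => Quotient.mk st x
  have hp : ∀ x y, p x = p y ↔ T x y := by
    intro x y
    exact Quotient.eq (r := st)
  have hloop : ∀ x, p (e x) ≠ p x := by
    intro x h
    rcases (hp _ _).1 h.symm with h | h | h
    · exact (he x).ne h.symm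
    · exact hae x h.symm
    · exact hbe x h.symm
  have h3 : ∀ q, {x | p x = q}.ncard = 3 := by
    intro q
    obtain ⟨x, rfl⟩ := Quotient.exists_rep q
    have : {y | p y = Quotient.mk st x} = {x, a x, b x} := by
      ext y
      simp only [Set.mem_ofPred_eq, Set.mem_insert_iff, Set.mem_singleton_iff]
      constructor
      · intro h
        exact (hp x y).1 h.symm
      · intro h
        exact ((hp x y).2 h).symm
    rw [this, Set.ncard_eq_three]
    exact ⟨x, a x, b x, (ha x).ne, (hb x).ne, (hab x).ne, rfl⟩
  have hcut : ∀ A : Set Q, {x | p x ∈ A ∧ p (e x) ∉ A}.ncard ≠ 1 := by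
    intro A h
    obtain ⟨x0, hx0⟩ := Set.ncard_eq_one.1 h
    have hmem : ∀ x, p x ∈ A → p (e x) ∉ A → x = x0 := by
      intro x h1 h2
      have : x ∈ ({x0} : Set X) := by
        rw [← hx0]
        exact ⟨h1, h2⟩
      exact this
    have hx0' : p x0 ∈ A ∧ p (e x0) ∉ A := by
      have : x0 ∈ {x | p x ∈ A ∧ p (e x) ∉ A} := by
        rw [hx0]
        rfl
      exact this
    have hb0 := hbr s(x0, e x0) (he x0)
    rw [isBridge_iff, not_not] at hb0
    obtain ⟨w⟩ := hb0
    have key : ∀ u v, (G.deleteEdges {s(x0, e x0)}).Walk u v → p u ∈ A → p v ∈ A := by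
      intro u v w
      induction w with
      | nil => exact id
      | @cons u v w' h _ ih =>
        intro hu
        apply ih
        by_contra hv
        rw [deleteEdges_adj] at h
        have hv' : v = e u := by
          rcases hall u v h.1 with h' | h' | h'
          · exact absurd (by rw [← (hp u v).2 (Or.inr (Or.inl h'))]; exact hu) hv
          · exact absurd (by rw [← (hp u v).2 (Or.inr (Or.inr h'))]; exact hu) hv
          · exact h'
        subst hv'
        have := hmem u hu hv
        subst this
        exact h.2 rfl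
    exact hx0'.2 (key _ _ w hx0'.1)
  obtain ⟨f, hf1, hf2⟩ := petersen p e hee hloop h3 hcut
  have hfp : ∀ x, T x (f (p x)) := fun x => (hp _ _).1 (hf1 (p x)).symm
  refine ⟨{ verts := Set.univ
            Adj := fun x y => (y = e x ∧ x = f (p x)) ∨
              (x ≠ y ∧ p x = p y ∧ x ≠ f (p x) ∧ y ≠ f (p y))
            adj_sub := ?_
            edge_vert := fun _ => trivial
            symm := ?_ }, ?_, ?_⟩
  · rintro x y (⟨h, _⟩ | ⟨h1, h2, _⟩)
    · subst h
      exact he x
    · rcases (hTiff _ _).1 ((hp _ _).1 h2) with h | h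
      · exact absurd h.symm h1
      · exact h.1
  · refine ⟨?_⟩
    rintro x y (⟨h, h'⟩ | ⟨h1, h2, h3, h4⟩)
    · left
      subst h
      refine ⟨(hee x).symm, ?_⟩
      have := hf2 (p x)
      rw [← h'] at this
      exact this.symm
    · exact Or.inr ⟨h1.symm, h2.symm, h4, h3⟩
  · rw [Subgraph.isPerfectMatching_iff]
    intro x
    by_cases hx : x = f (p x)
    · refine ⟨e x, Or.inl ⟨rfl, hx⟩, ?_⟩
      rintro y (⟨h, _⟩ | ⟨_, _, h, _⟩)
      · exact h
      · exact absurd hx h
    · have hpa : p x = p (a x) := (hp _ _).2 (Or.inr (Or.inl rfl))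
      have hpb : p x = p (b x) := (hp _ _).2 (Or.inr (Or.inr rfl))
      rcases hfp x with h | h | h
      · exact absurd h.symm hx
      · refine ⟨b x, Or.inr ⟨(hb x).ne, hpb, hx, ?_⟩, ?_⟩
        · rw [← hpb, h]
          exact (hab x).ne.symm
        · rintro y (⟨_, h'⟩ | ⟨h1, h2, _, h4⟩)
          · exact absurd h' hx
          · rcases (hp _ _).1 h2 with h' | h' | h'
            · exact absurd h'.symm h1
            · exfalso
              apply h4
              rw [← h2, h, h']
            · exact h'
      · refine ⟨a x, Or.inr ⟨(ha x).ne, hpa, hx, ?_⟩, ?_⟩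
        · rw [← hpa, h]
          exact (hab x).ne
        · rintro y (⟨_, h'⟩ | ⟨h1, h2, _, h4⟩)
          · exact absurd h' hx
          · rcases (hp _ _).1 h2 with h' | h' | h'
            · exact absurd h'.symm h1
            · exact h'
            · exfalso
              apply h4
              rw [← h2, h, h']
  · intro x y z hxy hxz hyz
    have hpxy : p x = p y := (hp _ _).2 ((hTiff _ _).2 (Or.inr ⟨hxy, z, hxz, hyz⟩))
    have hpxz : p x = p z := (hp _ _).2 ((hTiff _ _).2 (Or.inr ⟨hxz, y, hxy, hyz.symm⟩))
    have hfx : f (p x) = x ∨ f (p x) = y ∨ f (p x) = z := by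
      rcases hab' x y z hxy hxz hyz with h | h <;> rcases hfp x with h' | h' | h' <;>
        simp_all
    rcases hfx with h | h | h
    · right
      right
      right
      refine ⟨hyz.ne, by rw [← hpxy, ← hpxz], ?_, ?_⟩
      · rw [← hpxy, h]
        exact hxy.ne.symm
      · rw [← hpxz, h]
        exact hxz.ne.symm
    · right
      left
      right
      refine ⟨hxz.ne, hpxz, ?_, ?_⟩
      · rw [h]
        exact hxy.ne
      · rw [← hpxz, h]
        exact hyz.ne.symm
    · left
      right
      refine ⟨hxy.ne, hpxy, ?_, ?_⟩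
      · rw [h]
        exact hxz.ne
      · rw [← hpxy, h]
        exact hyz.ne

end Pool.Agent.LinFor.Pet
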