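import Mathlib

/-!
# Linear forests padded by pendant edges
-/

set_option autoImplicit false

namespace Pool.Agent.LinFor

open SimpleGraph

/-- A `k`-linear forest: acyclic, all degrees at most two, all paths of length at most `k`. -/
def LinearForest {W : Type*} (k : ℕ) (F : SimpleGraph W) : Prop :=
  F.IsAcyclic ∧ (∀ v, (F.neighborSet v).ncard ≤ 2) ∧
    ∀ (u v : W) (p : F.Walk u v), p.IsPath → p.length ≤ k

/-- The graph of the edges of `G` with exactly one end in `A`. -/
def cross {V : Type*} (G : SimpleGraph V) (A : Set V) : SimpleGraph V where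
  Adj u v := G.Adj u v ∧ (u ∈ A ↔ v ∉ A)
  symm := ⟨fun u v h => ⟨h.1.symm, by tauto⟩⟩
  loopless := ⟨fun v h => G.loopless.irrefl v h.1⟩

variable {V : Type*}

/-- edges inside `P` and the edges chosen by the vertices outside `P` -/
def pad (G : SimpleGraph V) (P : Set V) (m : V → V) : SimpleGraph V where
  Adj u v := (u ∈ P ∧ v ∈ P ∧ G.Adj u v) ∨ (u ∈ P ∧ v ∉ P ∧ m v = u) ∨
    (u ∉ P ∧ v ∈ P ∧ m u = v)
  symm := ⟨by
    rintro u v (⟨h1, h2, h3⟩ | ⟨h1, h2, h3⟩ | ⟨h1, h2, h3⟩)
    · exact Or.inl ⟨h2, h1, h3.symm⟩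
    · exact Or.inr (Or.inr ⟨h2, h1, h3⟩)
    · exact Or.inr (Or.inl ⟨h2, h1, h3⟩)⟩
  loopless := ⟨by
    rintro v (⟨_, _, h3⟩ | ⟨h1, h2, _⟩ | ⟨h1, h2, _⟩)
    · exact G.loopless.irrefl v h3
    · exact h2 h1
    · exact h1 h2⟩

variable {G : SimpleGraph V} {P : Set V} {m : V → V}

theorem pad_adj {u v : V} : (pad G P m).Adj u v ↔ (u ∈ P ∧ v ∈ P ∧ G.Adj u v) ∨
    (u ∈ P ∧ v ∉ P ∧ m v = u) ∨ (u ∉ P ∧ v ∈ P ∧ m u = v) := Iff.rfl

theorem mem_of_two {x a b : V} (ha : (pad G P m).Adj x a) (hb : (pad G P m).Adj x b)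
    (hab : a ≠ b) : x ∈ P := by
  by_contra hx
  rcases pad_adj.1 ha with h | h | h
  · exact hx h.1
  · exact hx h.1
  · rcases pad_adj.1 hb with h' | h' | h'
    · exact hx h'.1
    · exact hx h'.1
    · exact hab (h.2.2.symm.trans h'.2.2)

theorem induce_pad : (pad G P m).induce P = G.induce P := by
  ext ⟨u, hu⟩ ⟨v, hv⟩
  simp only [comap_adj, Function.Embedding.subtype_apply]
  rw [pad_adj]
  constructor
  · rintro (h | h | h)
    · exact h.2.2
    · exact absurd hv h.2.1
    · exact absurd hu h.1
  · intro h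
    exact Or.inl ⟨hu, hv, h⟩

theorem length_induce {H : SimpleGraph V} {s : Set V} {u v : V} (w : H.Walk u v)
    (hw : ∀ x ∈ w.support, x ∈ s) : (w.induce s hw).length = w.length := by
  induction w with
  | nil => rfl
  | cons h w ih => simp [ih]

theorem pad_linearForest {k : ℕ} (hP : LinearForest k (G.induce P))
    (hdeg : ∀ v ∈ P, ((pad G P m).neighborSet v).ncard ≤ 2) :
    LinearForest (k + 2) (pad G P m) := by
  rw [← induce_pad (m := m)] at hP
  refine ⟨?_, ?_, ?_⟩
  · intro v c hc
    have hs : ∀ x ∈ c.support, x ∈ P := by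
      intro x hx
      have h2 := hc.ncard_neighborSet_toSubgraph_eq_two hx
      obtain ⟨a, b, hab, he⟩ := Set.ncard_eq_two.1 h2
      have ha : a ∈ c.toSubgraph.neighborSet x := by rw [he]; simp
      have hb : b ∈ c.toSubgraph.neighborSet x := by rw [he]; simp
      exact mem_of_two (c.toSubgraph.adj_sub ha) (c.toSubgraph.adj_sub hb) hab
    have hmap := Walk.map_induce c hs
    have hc' : ((c.induce P hs).map (Embedding.induce P).toHom).IsCycle := by
      rw [hmap]; exact hc
    exact hP.1 _ ((Walk.isCycle_map_iff_of_injective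
      (Embedding.induce (G := pad G P m) P).injective).1 hc')
  · intro v
    by_cases hv : v ∈ P
    · exact hdeg v hv
    · have h1 : (pad G P m).neighborSet v ⊆ {m v} := by
        intro w hw
        rcases pad_adj.1 hw with h | h | h
        · exact absurd h.1 hv
        · exact absurd h.1 hv
        · exact h.2.2.symm
      calc _ ≤ ({m v} : Set V).ncard := Set.ncard_le_ncard h1 (Set.finite_singleton _)
        _ ≤ 2 := by rw [Set.ncard_singleton]; norm_num
  · intro u v p hp
    by_contra hlen
    have hlen' : k + 3 ≤ p.length := by omega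
    set q := p.tail.dropLast with hq
    have hql : q.length = p.length - 2 := by
      rw [hq, Walk.length_dropLast, Walk.length_tail]; omega
    have hqp : q.IsPath := hp.tail.dropLast
    have hgv : ∀ j ≤ q.length, q.getVert j = p.getVert (j + 1) := by
      intro j hj
      rw [hq]
      change (p.tail.take (p.tail.length - 1)).getVert j = _
      rw [Walk.take_getVert, Walk.getVert_tail]
      congr 2
      rw [hql] at hj
      rw [Walk.length_tail]
      omega
    have hs : ∀ x ∈ q.support, x ∈ P := by
      intro x hx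
      obtain ⟨j, hj, hjl⟩ := Walk.mem_support_iff_exists_getVert.1 hx
      rw [hgv j hjl] at hj
      rw [hql] at hjl
      subst hj
      have h1 : (pad G P m).Adj (p.getVert (j + 1)) (p.getVert j) :=
        (p.adj_getVert_succ (by omega)).symm
      have h2 : (pad G P m).Adj (p.getVert (j + 1)) (p.getVert (j + 2)) :=
        p.adj_getVert_succ (by omega)
      refine mem_of_two h1 h2 ?_
      intro h
      have := hp.getVert_injOn (by simp only [Set.mem_ofPred_eq]; omega)
        (by simp only [Set.mem_ofPred_eq]; omega) h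
      omega
    have hmap := Walk.map_induce q hs
    have hq' : ((q.induce P hs).map (Embedding.induce P).toHom).IsPath := by
      rw [hmap]; exact hqp
    have h3 := hP.2.2 _ _ _
      ((Walk.isPath_map_iff_of_injective
        (Embedding.induce (G := pad G P m) P).injective).1 hq')
    have h4 : (q.induce P hs).length = q.length := length_induce q hs
    rw [h4, hql] at h3
    omega

/-- Choice of an edge at every vertex so that every edge is chosen by exactly one end. -/
theorem exists_own [Finite V] (H : SimpleGraph V) (hE : H.edgeSet.ncard = Nat.card V)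
    (hS : ∀ S : Set V, {e ∈ H.edgeSet | ∀ v ∈ e, v ∈ S}.ncard ≤ S.ncard) :
    ∃ m : V → V, (∀ v, H.Adj v (m v)) ∧
      ∀ u v, H.Adj u v → (m u = v ∧ m v ≠ u) ∨ (m u ≠ v ∧ m v = u) := by
  classical
  have := Fintype.ofFinite V
  set E : Finset (Sym2 V) := Finset.univ.filter fun e => e ∈ H.edgeSet with hEdef
  have hEc : E.card = Fintype.card V := by
    rw [← Nat.card_eq_fintype_card, ← hE, ← Set.ncard_coe_finset]
    congr 1
    ext e; simp [hEdef]
  set t : V → Finset (Sym2 V) := fun v => E.filter fun e => v ∈ e with ht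
  have hall : ∀ s : Finset V, s.card ≤ (s.biUnion t).card := by
    intro s
    have h1 := hS ((s : Set V)ᶜ)
    set D : Finset (Sym2 V) := E.filter fun e => ∀ v ∈ e, v ∉ s with hD
    have h2 : {e ∈ H.edgeSet | ∀ v ∈ e, v ∈ ((s : Set V)ᶜ)}.ncard = D.card := by
      rw [← Set.ncard_coe_finset]
      congr 1
      ext e; simp [hD, hEdef]
    rw [h2, Set.ncard_compl, Set.ncard_coe_finset, Nat.card_eq_fintype_card] at h1
    have h3 : E ⊆ s.biUnion t ∪ D := by
      intro e he
      by_cases h : ∃ v ∈ s, v ∈ e
      · obtain ⟨v, hv, hve⟩ := h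
        refine Finset.mem_union_left _ (Finset.mem_biUnion.2 ⟨v, hv, ?_⟩)
        exact Finset.mem_filter.2 ⟨he, hve⟩
      · push Not at h
        refine Finset.mem_union_right _ (Finset.mem_filter.2 ⟨he, ?_⟩)
        intro v hve hvs
        exact h v hvs hve
    have h4 := (Finset.card_le_card h3).trans (Finset.card_union_le _ _)
    have h5 : s.card ≤ Fintype.card V := Finset.card_le_univ s
    omega
  obtain ⟨f, hf, hft⟩ := (Finset.all_card_le_biUnion_card_iff_exists_injective t).1 hall
  have hfm : ∀ v, v ∈ f v := fun v => (Finset.mem_filter.1 (hft v)).2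
  have hfE : ∀ v, f v ∈ E := fun v => (Finset.mem_filter.1 (hft v)).1
  have himg : Finset.univ.image f = E := by
    refine Finset.eq_of_subset_of_card_le ?_ ?_
    · intro e he
      obtain ⟨v, _, rfl⟩ := Finset.mem_image.1 he
      exact hfE v
    · rw [Finset.card_image_of_injective _ hf, hEc, Finset.card_univ]
  have hsp : ∀ v, s(v, Sym2.Mem.other (hfm v)) = f v := fun v => Sym2.other_spec (hfm v)
  refine ⟨fun v => Sym2.Mem.other (hfm v), ?_, ?_⟩
  · intro v
    have h1 : f v ∈ H.edgeSet := by simpa [hEdef] using hfE v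
    rw [← hsp v] at h1
    exact h1
  · intro u v huv
    have he : s(u, v) ∈ E := by simpa [hEdef] using huv
    rw [← himg] at he
    obtain ⟨w, _, hw⟩ := Finset.mem_image.1 he
    have hne : u ≠ v := huv.ne
    have key : ∀ a b : V, Sym2.Mem.other (hfm a) = b ↔ f a = s(a, b) := by
      intro a b
      constructor
      · intro h
        have h1 := hsp a
        rw [h] at h1
        exact h1.symm
      · intro h
        exact Sym2.congr_right.1 ((hsp a).trans h)
    have hwm : w ∈ s(u, v) := hw ▸ hfm w
    rcases Sym2.mem_iff.1 hwm with rfl | rfl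
    · left
      refine ⟨(key _ _).2 hw, ?_⟩
      intro h
      rw [key, Sym2.eq_swap, ← hw] at h
      exact hne (hf h).symm
    · right
      refine ⟨?_, (key _ _).2 (by rw [hw, Sym2.eq_swap])⟩
      intro h
      rw [key, ← hw] at h
      exact hne (hf h)

end Pool.Agent.LinFor
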