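import Pool.Agent.LinFor.Forward

/-!
# From a decomposition to a vertex partition
-/

set_option autoImplicit false

namespace Pool.Agent.LinFor

open SimpleGraph

variable {V : Type*} {G F₁ F₂ : SimpleGraph V}

theorem deg_add [Finite V] (hG : ∀ v, (G.neighborSet v).ncard = 3) (hs : F₁ ⊔ F₂ = G)
    (hd : Disjoint F₁ F₂) (v : V) :
    (F₁.neighborSet v).ncard + (F₂.neighborSet v).ncard = 3 := by
  rw [← hG v, ← hs, neighborSet_sup, Set.ncard_union_eq ?_ (Set.toFinite _) (Set.toFinite _)]
  rw [Set.disjoint_left]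
  intro w h1 h2
  have := disjoint_iff.1 hd
  have h3 : (F₁ ⊓ F₂).Adj v w := ⟨h1, h2⟩
  rw [this] at h3
  exact h3

/-- the interior vertices of the components of a linear forest -/
theorem linearForest_interior [Finite V] {k : ℕ} {F : SimpleGraph V}
    (h : LinearForest (k + 2) F) {A : Set V} (hA : ∀ v ∈ A, (F.neighborSet v).ncard = 2) :
    LinearForest k (F.induce A) := by
  refine ⟨h.1.induce A, ?_, ?_⟩
  · intro v
    refine le_trans ?_ (h.2.1 v)
    rw [← Set.ncard_image_of_injective _ Subtype.val_injective]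
    refine Set.ncard_le_ncard ?_ (Set.toFinite _)
    rintro _ ⟨w, hw, rfl⟩
    exact hw
  · rintro ⟨a, ha⟩ ⟨b, hb⟩ p hp
    have hex : ∀ v ∈ A, ∀ y, ∃ x, F.Adj v x ∧ x ≠ y := by
      intro v hv y
      obtain ⟨c, d, hcd, he⟩ := Set.ncard_eq_two.1 (hA v hv)
      by_cases hc : c = y
      · refine ⟨d, ?_, fun hd => hcd (hc.trans hd.symm)⟩
        have : d ∈ F.neighborSet v := by rw [he]; simp
        exact this
      · refine ⟨c, ?_, hc⟩
        have : c ∈ F.neighborSet v := by rw [he]; simp
        exact this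
    set q : F.Walk a b := p.map (Embedding.induce A).toHom with hq
    have hqp : q.IsPath := (Walk.isPath_map_iff_of_injective
      (Embedding.induce (G := F) A).injective).2 hp
    have hql : q.length = p.length := Walk.length_map _ _
    obtain ⟨x, hx, hxs⟩ := hex a ha q.snd
    have hx' : x ∉ q.support := fun hmem => hxs (h.1.eq_snd_of_adj_start hqp hx hmem)
    set r : F.Walk x b := Walk.cons hx.symm q with hr
    have hrp : r.IsPath := (Walk.cons_isPath_iff _ _).2 ⟨hqp, hx'⟩
    obtain ⟨y, hy, hys⟩ := hex b hb r.penultimate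
    have hy' : y ∉ r.support := fun hmem => hys (h.1.eq_penultimate_of_adj_end hrp hy hmem)
    have hfin := h.2.2 _ _ _ (hrp.concat hy' hy)
    rw [Walk.length_concat, hr, Walk.length_cons, hql] at hfin
    omega

theorem converse [Finite V] (hG : ∀ v, (G.neighborSet v).ncard = 3) {k : ℕ}
    (h1 : LinearForest (k + 2) F₁) (h2 : LinearForest (k + 2) F₂) (hs : F₁ ⊔ F₂ = G)
    (hd : Disjoint F₁ F₂) (hiso : Nonempty (F₁ ≃g F₂)) (hn1 : NoEdgeComponent F₁)
    (hn2 : NoEdgeComponent F₂) :
    ∃ A : Set V, LinearForest k (G.induce A) ∧ Nonempty (G.induce A ≃g G.induce Aᶜ) ∧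
      (cross G A).edgeSet.ncard = Nat.card V ∧
      ∀ S : Set V, {e ∈ (cross G A).edgeSet | ∀ v ∈ e, v ∈ S}.ncard ≤ S.ncard := by
  classical
  have hdeg := deg_add hG hs hd
  set A : Set V := {v | (F₁.neighborSet v).ncard = 2} with hA
  have hmem : ∀ v, v ∈ A ↔ (F₁.neighborSet v).ncard = 2 := fun v => Iff.rfl
  have hin : ∀ v ∈ A, (F₂.neighborSet v).ncard = 1 := by
    intro v hv
    have := hdeg v
    rw [(hmem v).1 hv] at this
    omega
  have hout : ∀ v, v ∉ A → (F₁.neighborSet v).ncard = 1 ∧ (F₂.neighborSet v).ncard = 2 := by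
    intro v hv
    have h3 := hdeg v
    have h4 := h1.2.1 v
    have h5 := h2.2.1 v
    have h6 : (F₁.neighborSet v).ncard ≠ 2 := hv
    omega
  have hdis : ∀ u v, F₁.Adj u v → F₂.Adj u v → False := by
    intro u v ha hb
    have h3 : (F₁ ⊓ F₂).Adj u v := ⟨ha, hb⟩
    rw [disjoint_iff.1 hd] at h3
    exact h3
  have hG' : ∀ u v, G.Adj u v ↔ F₁.Adj u v ∨ F₂.Adj u v := by
    intro u v
    rw [← hs]; rfl
  have hAA : G.induce A = F₁.induce A := by
    ext ⟨u, hu⟩ ⟨v, hv⟩
    simp only [comap_adj, Function.Embedding.subtype_apply]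
    rw [hG']
    refine ⟨?_, Or.inl⟩
    rintro (h | h)
    · exact h
    · rcases hn2 u v h with h' | h'
      · rw [hin u hu] at h'; omega
      · rw [hin v hv] at h'; omega
  have hBB : G.induce Aᶜ = F₂.induce Aᶜ := by
    ext ⟨u, hu⟩ ⟨v, hv⟩
    simp only [comap_adj, Function.Embedding.subtype_apply]
    rw [hG']
    refine ⟨?_, Or.inr⟩
    rintro (h | h)
    · rcases hn1 u v h with h' | h'
      · rw [(hout u hu).1] at h'; omega
      · rw [(hout v hv).1] at h'; omega
    · exact h
  obtain ⟨φ⟩ := hiso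
  have hφ : ∀ v, (F₂.neighborSet (φ v)).ncard = (F₁.neighborSet v).ncard := by
    intro v
    have h3 : F₂.neighborSet (φ v) = φ '' F₁.neighborSet v := by
      ext w
      simp only [mem_neighborSet, Set.mem_image]
      constructor
      · intro hw
        refine ⟨φ.symm w, ?_, by simp⟩
        have := φ.symm.map_adj_iff.2 hw
        simpa using this
      · rintro ⟨x, hx, rfl⟩
        exact φ.map_adj_iff.2 hx
    rw [h3, Set.ncard_image_of_injective _ φ.injective]
  have hφA : ∀ v, v ∈ A ↔ φ v ∈ Aᶜ := by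
    intro v
    constructor
    · intro hv hv'
      have := hφ v
      rw [hin _ hv', (hmem v).1 hv] at this
      omega
    · intro hv
      have := hφ v
      rw [(hout _ hv).2] at this
      exact this.symm
  have hchoice : ∀ v, ∃ w, (v ∉ A → F₁.neighborSet v = {w}) ∧ (v ∈ A → F₂.neighborSet v = {w}) := by
    intro v
    by_cases hv : v ∈ A
    · obtain ⟨w, hw⟩ := Set.ncard_eq_one.1 (hin v hv)
      exact ⟨w, fun h => absurd hv h, fun _ => hw⟩
    · obtain ⟨w, hw⟩ := Set.ncard_eq_one.1 (hout v hv).1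
      exact ⟨w, fun _ => hw, fun h => absurd h hv⟩
  choose m hm1 hm2 using hchoice
  have hF1 : ∀ u v, u ∉ A → F₁.Adj u v → m u = v := by
    intro u v hu h
    have h3 : v ∈ F₁.neighborSet u := h
    rw [hm1 u hu] at h3
    exact h3.symm
  have hF1' : ∀ u, u ∉ A → F₁.Adj u (m u) := by
    intro u hu
    have h3 : m u ∈ F₁.neighborSet u := by rw [hm1 u hu]; rfl
    exact h3
  have hF2 : ∀ u v, u ∈ A → F₂.Adj u v → m u = v := by
    intro u v hu h
    have h3 : v ∈ F₂.neighborSet u := h
    rw [hm2 u hu] at h3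
    exact h3.symm
  have hF2' : ∀ u, u ∈ A → F₂.Adj u (m u) := by
    intro u hu
    have h3 : m u ∈ F₂.neighborSet u := by rw [hm2 u hu]; rfl
    exact h3
  have hcr : ∀ u, (cross G A).Adj u (m u) := by
    intro u
    by_cases hu : u ∈ A
    · have h3 := hF2' u hu
      refine ⟨(hG' _ _).2 (Or.inr h3), ?_⟩
      rcases hn2 _ _ h3 with h' | h'
      · rw [hin u hu] at h'; omega
      · have : m u ∉ A := fun h'' => by rw [hin _ h''] at h'; omega
        tauto
    · have h3 := hF1' u hu
      refine ⟨(hG' _ _).2 (Or.inl h3), ?_⟩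
      rcases hn1 _ _ h3 with h' | h'
      · rw [(hout u hu).1] at h'; omega
      · have : m u ∈ A := h'
        tauto
  have hinj : Function.Injective fun v => s(v, m v) := by
    intro u v huv
    by_contra hne
    rcases Sym2.eq_iff.1 huv with ⟨h3, _⟩ | ⟨h3, h4⟩
    · exact hne h3
    · have h5 := (hcr u).2
      rw [h4] at h5
      by_cases hu : u ∈ A
      · have hv : v ∉ A := h5.1 hu
        have h6 := hF2' u hu
        have h7 := hF1' v hv
        rw [h4] at h6
        rw [← h3] at h7
        exact hdis _ _ h7.symm h6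
      · have hv : v ∈ A := by tauto
        have h6 := hF1' u hu
        have h7 := hF2' v hv
        rw [h4] at h6
        rw [← h3] at h7
        exact hdis _ _ h6 h7.symm
  have hcov : ∀ u v, (cross G A).Adj u v → u ∈ A → s(u, v) = s(u, m u) ∨ s(u, v) = s(v, m v) := by
    intro u v h hu
    have hv : v ∉ A := h.2.1 hu
    rcases (hG' _ _).1 h.1 with h3 | h3
    · right
      rw [hF1 v u hv h3.symm, Sym2.eq_swap]
    · left
      rw [hF2 u v hu h3]
  have hcov' : ∀ u v, (cross G A).Adj u v → s(u, v) = s(u, m u) ∨ s(u, v) = s(v, m v) := by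
    intro u v h
    by_cases hu : u ∈ A
    · exact hcov u v h hu
    · have hv : v ∈ A := by have := h.2; tauto
      rcases hcov v u h.symm hv with h3 | h3
      · right; rw [← h3, Sym2.eq_swap]
      · left; rw [← h3, Sym2.eq_swap]
  refine ⟨A, ?_, ?_, ?_, ?_⟩
  · rw [hAA]
    exact linearForest_interior h1 fun v hv => hv
  · rw [hAA, hBB]
    refine ⟨⟨φ.toEquiv.subtypeEquiv (fun v => hφA v), ?_⟩⟩
    rintro ⟨u, hu⟩ ⟨v, hv⟩
    exact φ.map_adj_iff
  · have h3 : (cross G A).edgeSet = Set.range fun v => s(v, m v) := by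
      ext e
      induction e using Sym2.ind with
      | _ u v =>
        rw [mem_edgeSet]
        constructor
        · intro h
          rcases hcov' u v h with h4 | h4
          · exact ⟨u, h4.symm⟩
          · exact ⟨v, h4.symm⟩
        · rintro ⟨w, hw⟩
          have h4 := hcr w
          rw [← mem_edgeSet] at h4 ⊢
          rw [← hw]
          exact h4
    rw [h3, ← Set.image_univ, Set.ncard_image_of_injective _ hinj, Set.ncard_univ]
  · intro S
    have h3 : {e ∈ (cross G A).edgeSet | ∀ v ∈ e, v ∈ S} ⊆ (fun v => s(v, m v)) '' S := by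
      intro e he
      induction e using Sym2.ind with
      | _ u v =>
        obtain ⟨h4, h5⟩ := he
        rcases hcov' u v h4 with h6 | h6
        · exact ⟨u, h5 u (Sym2.mem_mk_left u v), h6.symm⟩
        · exact ⟨v, h5 v (Sym2.mem_mk_right u v), h6.symm⟩
    calc _ ≤ ((fun v => s(v, m v)) '' S).ncard := Set.ncard_le_ncard h3 (Set.toFinite _)
      _ ≤ S.ncard := Set.ncard_image_le (Set.toFinite _)

end Pool.Agent.LinFor
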