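import Pool.Agent.LinFor.Basic

/-!
# From a vertex partition to a decomposition
-/

set_option autoImplicit false

namespace Pool.Agent.LinFor

open SimpleGraph

variable {V : Type*} {G : SimpleGraph V} {P : Set V} {m : V → V}

/-- `m` chooses at every vertex an edge of `H`, every edge being chosen by exactly one end -/
def Own (H : SimpleGraph V) (m : V → V) : Prop :=
  (∀ v, H.Adj v (m v)) ∧ ∀ u v, H.Adj u v → (m u = v ∧ m v ≠ u) ∨ (m u ≠ v ∧ m v = u)

theorem cross_compl (G : SimpleGraph V) (A : Set V) : cross G Aᶜ = cross G A := by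
  ext u v
  change (G.Adj u v ∧ _) ↔ (G.Adj u v ∧ _)
  simp only [Set.mem_compl_iff, not_not]
  tauto

theorem card_fib [Finite V] (hG : ∀ v, (G.neighborSet v).ncard = 3) (hm : Own (cross G P) m)
    {a : V} (ha : a ∈ P) :
    {b | b ∈ P ∧ G.Adj a b}.ncard + {b | b ∉ P ∧ m b = a}.ncard = 2 := by
  have h1 : G.neighborSet a = {b | b ∈ P ∧ G.Adj a b} ∪ {b | b ∉ P ∧ G.Adj a b} := by
    ext b
    simp only [mem_neighborSet, Set.mem_union, Set.mem_ofPred_eq]
    tauto
  have h2 : {b | b ∉ P ∧ G.Adj a b} = insert (m a) {b | b ∉ P ∧ m b = a} := by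
    ext b
    simp only [Set.mem_ofPred_eq, Set.mem_insert_iff]
    constructor
    · rintro ⟨hb, hab⟩
      rcases hm.2 a b ⟨hab, by tauto⟩ with h | h
      · exact Or.inl h.1.symm
      · exact Or.inr ⟨hb, h.2⟩
    · rintro (rfl | ⟨hb, rfl⟩)
      · have := hm.1 a
        exact ⟨by have := this.2; tauto, this.1⟩
      · exact ⟨hb, (hm.1 b).1.symm⟩
  have h3 : m a ∉ {b | b ∉ P ∧ m b = a} := by
    intro h
    rcases hm.2 a (m a) (hm.1 a) with h' | h'
    · exact h'.2 h.2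
    · exact h'.1 rfl
  have h4 := hG a
  rw [h1, Set.ncard_union_eq ?_ (Set.toFinite _) (Set.toFinite _), h2,
    Set.ncard_insert_of_notMem h3 (Set.toFinite _)] at h4
  · omega
  · rw [Set.disjoint_left]
    rintro b ⟨hb, _⟩ ⟨hb', _⟩
    exact hb' hb

theorem pad_deg [Finite V] (hG : ∀ v, (G.neighborSet v).ncard = 3) (hm : Own (cross G P) m)
    {a : V} (ha : a ∈ P) : ((pad G P m).neighborSet a).ncard = 2 := by
  have h1 : (pad G P m).neighborSet a = {b | b ∈ P ∧ G.Adj a b} ∪ {b | b ∉ P ∧ m b = a} := by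
    ext b
    simp only [mem_neighborSet, Set.mem_union, Set.mem_ofPred_eq, pad_adj]
    tauto
  rw [h1, Set.ncard_union_eq ?_ (Set.toFinite _) (Set.toFinite _)]
  · exact card_fib hG hm ha
  · rw [Set.disjoint_left]
    rintro b ⟨hb, _⟩ ⟨hb', _⟩
    exact hb' hb

theorem card_induce [Finite V] (a : P) :
    ((G.induce P).neighborSet a).ncard = {b | b ∈ P ∧ G.Adj a b}.ncard := by
  rw [← Set.ncard_image_of_injective _ Subtype.val_injective]
  congr 1
  ext b
  constructor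
  · rintro ⟨⟨b, hb⟩, h, rfl⟩
    exact ⟨hb, h⟩
  · rintro ⟨hb, h⟩
    exact ⟨⟨b, hb⟩, h, rfl⟩

theorem LinearForest.of_iso {W W' : Type*} [Finite W] {k : ℕ} {F : SimpleGraph W}
    {F' : SimpleGraph W'} (φ : F ≃g F') (h : LinearForest k F) : LinearForest k F' := by
  refine ⟨φ.isAcyclic_iff.1 h.1, ?_, ?_⟩
  · intro v
    have h1 : F'.neighborSet v = φ '' F.neighborSet (φ.symm v) := by
      ext w
      simp only [mem_neighborSet, Set.mem_image]
      constructor
      · intro hw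
        refine ⟨φ.symm w, ?_, by simp⟩
        exact φ.symm.map_adj_iff.2 hw
      · rintro ⟨x, hx, rfl⟩
        have := φ.map_adj_iff.2 hx
        simpa using this
    rw [h1, Set.ncard_image_of_injective _ φ.injective]
    exact h.2.1 _
  · intro u v p hp
    have h1 := h.2.2 _ _ (p.map φ.symm.toHom)
      ((Walk.isPath_map_iff_of_injective φ.symm.injective).2 hp)
    rwa [Walk.length_map] at h1

/-- no component consists of a single edge -/
def NoEdgeComponent {W : Type*} (F : SimpleGraph W) : Prop :=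
  ∀ u v, F.Adj u v → (F.neighborSet u).ncard = 2 ∨ (F.neighborSet v).ncard = 2

theorem pad_noEdge [Finite V] (hG : ∀ v, (G.neighborSet v).ncard = 3)
    (hm : Own (cross G P) m) : NoEdgeComponent (pad G P m) := by
  intro u v h
  rcases pad_adj.1 h with h | h | h
  · exact Or.inl (pad_deg hG hm h.1)
  · exact Or.inl (pad_deg hG hm h.1)
  · exact Or.inr (pad_deg hG hm h.2.1)

theorem pad_sup {A : Set V} (hm : Own (cross G A) m) : pad G A m ⊔ pad G Aᶜ m = G := by
  ext u v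
  rw [sup_adj, pad_adj, pad_adj]
  simp only [Set.mem_compl_iff, not_not]
  constructor
  · rintro ((h | h | h) | (h | h | h))
    · exact h.2.2
    · have := (hm.1 v).1; rw [h.2.2] at this; exact this.symm
    · have := (hm.1 u).1; rw [h.2.2] at this; exact this
    · exact h.2.2
    · have := (hm.1 v).1; rw [h.2.2] at this; exact this.symm
    · have := (hm.1 u).1; rw [h.2.2] at this; exact this
  · intro h
    by_cases hu : u ∈ A <;> by_cases hv : v ∈ A
    · tauto
    · rcases hm.2 u v ⟨h, by tauto⟩ with h' | h' <;> tauto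
    · rcases hm.2 u v ⟨h, by tauto⟩ with h' | h' <;> tauto
    · tauto

theorem pad_disjoint {A : Set V} (hm : Own (cross G A) m) :
    Disjoint (pad G A m) (pad G Aᶜ m) := by
  rw [disjoint_iff]
  ext u v
  rw [inf_adj, pad_adj, pad_adj]
  simp only [Set.mem_compl_iff, not_not, bot_adj, iff_false]
  rintro ⟨h | h | h, h' | h' | h'⟩
  · exact h'.1 h.1
  · exact h'.1 h.1
  · exact h'.2.1 h.2.1
  · exact h'.1 h.1
  · exact h'.1 h.1
  · have h1 := hm.1 u
    rw [h'.2.2] at h1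
    rcases hm.2 u v h1 with h2 | h2
    · exact h2.2 h.2.2
    · exact h2.1 h'.2.2
  · exact h'.2.1 h.2.1
  · have h1 := hm.1 u
    rw [h.2.2] at h1
    rcases hm.2 u v h1 with h2 | h2
    · exact h2.2 h'.2.2
    · exact h2.1 h.2.2
  · exact h.1 h'.1

theorem pad_iso [Finite V] (hG : ∀ v, (G.neighborSet v).ncard = 3) {A : Set V}
    (hm : Own (cross G A) m) (ψ : G.induce A ≃g G.induce Aᶜ) :
    Nonempty (pad G A m ≃g pad G Aᶜ m) := by
  classical
  have := Fintype.ofFinite V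
  have hm' : Own (cross G Aᶜ) m := by rw [cross_compl]; exact hm
  have hf : ∀ b : (Aᶜ : Set V), m b ∈ A := by
    intro b
    have := (hm.1 b).2
    have hb := b.2
    rw [Set.mem_compl_iff] at hb
    tauto
  have hg : ∀ a : A, m a ∈ Aᶜ := by
    intro a
    have := (hm.1 a).2
    have ha := a.2
    rw [Set.mem_compl_iff]
    tauto
  set f : (Aᶜ : Set V) → A := fun b => ⟨m b, hf b⟩ with hfdef
  set g : A → (Aᶜ : Set V) := fun a => ⟨m a, hg a⟩ with hgdef
  have hcard1 : ∀ a : A, Nat.card {b : (Aᶜ : Set V) // f b = a} = {b | b ∉ A ∧ m b = a}.ncard := by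
    intro a
    rw [← Nat.card_coe_set_eq]
    refine Nat.card_congr ⟨fun b => ⟨b.1.1, b.1.2, congrArg Subtype.val b.2⟩,
      fun b => ⟨⟨b.1, b.2.1⟩, Subtype.ext b.2.2⟩, fun _ => rfl, fun _ => rfl⟩
  have hcard2 : ∀ c : (Aᶜ : Set V), Nat.card {a : A // g a = c} =
      {b | b ∉ (Aᶜ : Set V) ∧ m b = c}.ncard := by
    intro c
    rw [← Nat.card_coe_set_eq]
    refine Nat.card_congr ⟨fun b => ⟨b.1.1, by
        rw [Set.mem_ofPred_eq, Set.mem_compl_iff, not_not]
        exact ⟨b.1.2, congrArg Subtype.val b.2⟩⟩,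
      fun b => ⟨⟨b.1, by simpa using b.2.1⟩, Subtype.ext b.2.2⟩, fun _ => rfl, fun _ => rfl⟩
  have hcard : ∀ a : A, Nat.card {b : (Aᶜ : Set V) // f b = a} = Nat.card {x : A // g x = ψ a} := by
    intro a
    rw [hcard1, hcard2]
    have h1 := card_fib hG hm a.2
    have h2 := card_fib hG hm' (ψ a).2
    rw [← card_induce] at h1 h2
    have h3 : ((G.induce A).neighborSet a).ncard = ((G.induce Aᶜ).neighborSet (ψ a)).ncard := by
      have h4 : (G.induce Aᶜ).neighborSet (ψ a) = ψ '' (G.induce A).neighborSet a := by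
        ext w
        simp only [mem_neighborSet, Set.mem_image]
        constructor
        · intro hw
          refine ⟨ψ.symm w, ?_, by simp⟩
          have := ψ.symm.map_adj_iff.2 hw
          simpa using this
        · rintro ⟨x, hx, rfl⟩
          exact ψ.map_adj_iff.2 hx
      rw [h4, Set.ncard_image_of_injective _ ψ.injective]
    omega
  have e : ∀ a : A, {b : (Aᶜ : Set V) // f b = a} ≃ {x : A // g x = ψ.toEquiv a} := by
    intro a
    have h1 := hcard a
    exact Classical.choice (Finite.card_eq.1 h1)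
  set χ : (Aᶜ : Set V) ≃ A := (Equiv.sigmaFiberEquiv f).symm.trans
    ((Equiv.sigmaCongr ψ.toEquiv e).trans (Equiv.sigmaFiberEquiv g)) with hχ
  have hχg : ∀ b, g (χ b) = ψ (f b) := by
    intro b
    have h1 := (e (f b) ⟨b, rfl⟩).2
    exact h1
  set Φ : V ≃ V := (Equiv.Set.sumCompl A).symm.trans ((Equiv.sumCongr ψ.toEquiv χ).trans
    ((Equiv.sumComm _ _).trans (Equiv.Set.sumCompl A))) with hΦ
  have hΦA : ∀ v (hv : v ∈ A), Φ v = (ψ ⟨v, hv⟩ : V) := by
    intro v hv
    simp [hΦ, Equiv.Set.sumCompl_symm_apply_of_mem hv]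
  have hΦB : ∀ v (hv : v ∉ A), Φ v = (χ ⟨v, hv⟩ : V) := by
    intro v hv
    simp [hΦ, Equiv.Set.sumCompl_symm_apply_of_notMem hv]
  refine ⟨⟨Φ, ?_⟩⟩
  intro u v
  rw [pad_adj, pad_adj]
  simp only [Set.mem_compl_iff, not_not]
  by_cases hu : u ∈ A <;> by_cases hv : v ∈ A
  · have hu' := (ψ ⟨u, hu⟩).2
    have hv' := (ψ ⟨v, hv⟩).2
    rw [Set.mem_compl_iff] at hu' hv'
    rw [hΦA u hu, hΦA v hv]
    have h1 : G.Adj (ψ ⟨u, hu⟩ : V) (ψ ⟨v, hv⟩ : V) ↔ G.Adj u v :=
      ψ.map_adj_iff (v := ⟨u, hu⟩) (w := ⟨v, hv⟩)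
    tauto
  · have hu' := (ψ ⟨u, hu⟩).2
    have hv' := (χ ⟨v, hv⟩).2
    rw [Set.mem_compl_iff] at hu'
    rw [hΦA u hu, hΦB v hv]
    have h1 : m (χ ⟨v, hv⟩ : V) = (ψ ⟨u, hu⟩ : V) ↔ m v = u := by
      have h2 := congrArg Subtype.val (hχg ⟨v, hv⟩)
      have h3 : m (χ ⟨v, hv⟩ : V) = (ψ (f ⟨v, hv⟩) : V) := h2
      rw [h3]
      constructor
      · intro h
        have h4 := ψ.injective (Subtype.ext h)
        exact congrArg Subtype.val h4
      · intro h
        have h4 : f ⟨v, hv⟩ = ⟨u, hu⟩ := Subtype.ext h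
        rw [h4]
    tauto
  · have hv' := (ψ ⟨v, hv⟩).2
    have hu' := (χ ⟨u, hu⟩).2
    rw [Set.mem_compl_iff] at hv'
    rw [hΦA v hv, hΦB u hu]
    have h1 : m (χ ⟨u, hu⟩ : V) = (ψ ⟨v, hv⟩ : V) ↔ m u = v := by
      have h2 := congrArg Subtype.val (hχg ⟨u, hu⟩)
      have h3 : m (χ ⟨u, hu⟩ : V) = (ψ (f ⟨u, hu⟩) : V) := h2
      rw [h3]
      constructor
      · intro h
        have h4 := ψ.injective (Subtype.ext h)
        exact congrArg Subtype.val h4
      · intro h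
        have h4 : f ⟨u, hu⟩ = ⟨v, hv⟩ := Subtype.ext h
        rw [h4]
    tauto
  · have hu' := (χ ⟨u, hu⟩).2
    have hv' := (χ ⟨v, hv⟩).2
    rw [hΦB u hu, hΦB v hv]
    tauto

theorem forward [Finite V] (hG : ∀ v, (G.neighborSet v).ncard = 3) {k : ℕ} {A : Set V}
    (hA : LinearForest k (G.induce A)) (hiso : Nonempty (G.induce A ≃g G.induce Aᶜ))
    (hE : (cross G A).edgeSet.ncard = Nat.card V)
    (hS : ∀ S : Set V, {e ∈ (cross G A).edgeSet | ∀ v ∈ e, v ∈ S}.ncard ≤ S.ncard) :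
    ∃ F₁ F₂ : SimpleGraph V, LinearForest (k + 2) F₁ ∧ LinearForest (k + 2) F₂ ∧
      F₁ ⊔ F₂ = G ∧ Disjoint F₁ F₂ ∧ Nonempty (F₁ ≃g F₂) ∧ NoEdgeComponent F₁ ∧
      NoEdgeComponent F₂ := by
  obtain ⟨m, hm1, hm2⟩ := exists_own (cross G A) hE hS
  have hm : Own (cross G A) m := ⟨hm1, hm2⟩
  have hm' : Own (cross G Aᶜ) m := by rw [cross_compl]; exact hm
  obtain ⟨ψ⟩ := hiso
  have hB : LinearForest k (G.induce Aᶜ) := hA.of_iso ψ
  exact ⟨pad G A m, pad G Aᶜ m,
    pad_linearForest hA (fun v hv => (pad_deg hG hm hv).le),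
    pad_linearForest hB (fun v hv => (pad_deg hG hm' hv).le),
    pad_sup hm, pad_disjoint hm, pad_iso hG hm ψ, pad_noEdge hG hm, pad_noEdge hG hm'⟩

end Pool.Agent.LinFor
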