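import Pool.Agent.LinFor.Forward

/-!
# Cubic graphs made of triangles
-/

set_option autoImplicit false

namespace Pool.Agent.LinFor

open SimpleGraph

theorem forward_own {V : Type*} {G : SimpleGraph V} [Finite V]
    (hG : ∀ v, (G.neighborSet v).ncard = 3) {k : ℕ} {A : Set V} {m : V → V}
    (hm : Own (cross G A) m)
    (hA : LinearForest k (G.induce A)) (hiso : Nonempty (G.induce A ≃g G.induce Aᶜ)) :
    ∃ F₁ F₂ : SimpleGraph V, LinearForest (k + 2) F₁ ∧ LinearForest (k + 2) F₂ ∧
      F₁ ⊔ F₂ = G ∧ Disjoint F₁ F₂ ∧ Nonempty (F₁ ≃g F₂) := by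
  have hm' : Own (cross G Aᶜ) m := by rw [cross_compl]; exact hm
  obtain ⟨ψ⟩ := hiso
  have hB : LinearForest k (G.induce Aᶜ) := hA.of_iso ψ
  exact ⟨pad G A m, pad G Aᶜ m,
    pad_linearForest hA (fun v hv => (pad_deg hG hm hv).le),
    pad_linearForest hB (fun v hv => (pad_deg hG hm' hv).le),
    pad_sup hm, pad_disjoint hm, pad_iso hG hm ψ⟩

/-- acyclic with short paths if no two adjacent vertices have two neighbours -/
theorem small_forest {V : Type*} {F : SimpleGraph V}
    (h2 : ∀ v, (F.neighborSet v).ncard ≤ 2)
    (h : ∀ x y, F.Adj x y → (∃ a b, a ≠ b ∧ F.Adj x a ∧ F.Adj x b) →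
      (∃ a b, a ≠ b ∧ F.Adj y a ∧ F.Adj y b) → False) : LinearForest 2 F := by
  refine ⟨?_, h2, ?_⟩
  · intro v c hc
    have hs : ∀ x ∈ c.support, ∃ a b, a ≠ b ∧ F.Adj x a ∧ F.Adj x b := by
      intro x hx
      have h2 := hc.ncard_neighborSet_toSubgraph_eq_two hx
      obtain ⟨a, b, hab, he⟩ := Set.ncard_eq_two.1 h2
      have ha : a ∈ c.toSubgraph.neighborSet x := by rw [he]; simp
      have hb : b ∈ c.toSubgraph.neighborSet x := by rw [he]; simp
      exact ⟨a, b, hab, c.toSubgraph.adj_sub ha, c.toSubgraph.adj_sub hb⟩
    have h3 : F.Adj (c.getVert 0) (c.getVert 1) :=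
      c.adj_getVert_succ (by have := hc.three_le_length; omega)
    exact h _ _ h3 (hs _ (c.getVert_mem_support 0)) (hs _ (c.getVert_mem_support 1))
  · intro u v p hp
    by_contra hlen
    have hlen' : 3 ≤ p.length := by omega
    have hadj : ∀ i, i < p.length → F.Adj (p.getVert i) (p.getVert (i + 1)) := fun i hi =>
      p.adj_getVert_succ hi
    have hne : ∀ i j, i ≤ p.length → j ≤ p.length → i ≠ j → p.getVert i ≠ p.getVert j := by
      intro i j hi hj hij heq
      exact hij (hp.getVert_injOn (by simpa using hi) (by simpa using hj) heq)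
    refine h (p.getVert 1) (p.getVert 2) (hadj 1 (by omega)) ?_ ?_
    · exact ⟨p.getVert 0, p.getVert 2, hne _ _ (by omega) (by omega) (by omega),
        (hadj 0 (by omega)).symm, hadj 1 (by omega)⟩
    · exact ⟨p.getVert 1, p.getVert 3, hne _ _ (by omega) (by omega) (by omega),
        (hadj 1 (by omega)).symm, hadj 2 (by omega)⟩

/-- the three vertices of a triangle -/
inductive Pos
  | n
  | p
  | m
  deriving DecidableEq

instance : Fintype Pos := ⟨{.n, .p, .m}, by rintro (_ | _ | _) <;> simp⟩

theorem prop1 {p q m n : Prop} (hN : n) (hP : p ↔ q) (h : n ↔ ¬ (p ↔ m)) : q ↔ ¬ m := by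
  by_cases hp : p <;> by_cases hq : q <;> by_cases hm : m <;> simp_all

theorem prop2 {p q : Prop} (hP : ¬ (p ↔ q)) : q ↔ ¬ p := by
  by_cases hp : p <;> by_cases hq : q <;> simp_all

theorem prop3 {p q m n : Prop} (hN : n) (hP : q ↔ ¬ m) (h : n ↔ ¬ (p ↔ m)) : p ↔ q := by
  by_cases hp : p <;> by_cases hq : q <;> by_cases hm : m <;> simp_all

theorem prop4 {p q m n : Prop} (hN : n) (hP : m ↔ ¬ q) (h : n ↔ ¬ (p ↔ m)) : p ↔ q := by
  by_cases hp : p <;> by_cases hq : q <;> by_cases hm : m <;> simp_all

variable {W : Type*}

/-- adjacency in the triangle graph -/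
def tadj (ν : W → W) (μ : Equiv.Perm W) : W × Pos → W × Pos → Prop
  | (w, .n), (w', .n) => w' = ν w
  | (w, .p), (w', .m) => w = w' ∨ w' = μ w
  | (w, .m), (w', .p) => w = w' ∨ w = μ w'
  | (w, .n), (w', .p) => w = w'
  | (w, .n), (w', .m) => w = w'
  | (w, .p), (w', .n) => w = w'
  | (w, .m), (w', .n) => w = w'
  | (_, .p), (_, .p) => False
  | (_, .m), (_, .m) => False

/-- the triangle graph -/
def tri (ν : W → W) (μ : Equiv.Perm W) (hν : ∀ w, ν (ν w) = w) (hν' : ∀ w, ν w ≠ w) :
    SimpleGraph (W × Pos) where
  Adj := tadj ν μ
  symm := ⟨by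
    rintro ⟨w, _ | _ | _⟩ ⟨w', _ | _ | _⟩ h
    · have h' : w' = ν w := h
      change w = ν w'
      rw [h', hν]
    · exact Eq.symm h
    · exact Eq.symm h
    · exact Eq.symm h
    · exact h
    · rcases h with h | h
      · exact Or.inl h.symm
      · exact Or.inr h
    · exact Eq.symm h
    · rcases h with h | h
      · exact Or.inl h.symm
      · exact Or.inr h
    · exact h⟩
  loopless := ⟨by
    rintro ⟨w, _ | _ | _⟩ h
    · exact hν' w (Eq.symm h)
    · exact h
    · exact h⟩

section

variable {ν : W → W} {μ : Equiv.Perm W} {hν : ∀ w, ν (ν w) = w} {hν' : ∀ w, ν w ≠ w}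

theorem tri_cubic (hμ : ∀ w, μ w ≠ w) (x : W × Pos) :
    ((tri ν μ hν hν').neighborSet x).ncard = 3 := by
  rcases x with ⟨w, _ | _ | _⟩
  · have h : (tri ν μ hν hν').neighborSet (w, .n) = {(w, .p), (w, .m), (ν w, .n)} := by
      ext ⟨w', _ | _ | _⟩
      · change w' = ν w ↔ _
        simp
      · change w = w' ↔ _
        simp [eq_comm]
      · change w = w' ↔ _
        simp [eq_comm]
    rw [h]
    exact Set.ncard_eq_three.2 ⟨_, _, _, by simp, by simp, by simp, rfl⟩
  · have h : (tri ν μ hν hν').neighborSet (w, .p) = {(w, .n), (w, .m), (μ w, .m)} := by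
      ext ⟨w', _ | _ | _⟩
      · change w = w' ↔ _
        simp [eq_comm]
      · change False ↔ _
        simp
      · change w = w' ∨ w' = μ w ↔ _
        simp [eq_comm]
    rw [h]
    refine Set.ncard_eq_three.2 ⟨_, _, _, by simp, by simp, ?_, rfl⟩
    intro h'
    exact hμ w (congrArg Prod.fst h').symm
  · have h : (tri ν μ hν hν').neighborSet (w, .m) = {(w, .n), (w, .p), (μ.symm w, .p)} := by
      ext ⟨w', _ | _ | _⟩
      · change w = w' ↔ _
        simp [eq_comm]
      · change w = w' ∨ w = μ w' ↔ _
        simp only [Set.mem_insert_iff, Prod.mk.injEq, reduceCtorEq, and_false, and_true,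
          Set.mem_singleton_iff, false_or]
        rw [Equiv.eq_symm_apply]
        constructor
        · rintro (h | h)
          · exact Or.inl h.symm
          · exact Or.inr h.symm
        · rintro (h | h)
          · exact Or.inl h.symm
          · exact Or.inr h.symm
      · change False ↔ _
        simp
    rw [h]
    refine Set.ncard_eq_three.2 ⟨_, _, _, by simp, by simp, ?_, rfl⟩
    intro h'
    have h3 : w = μ.symm w := congrArg Prod.fst h'
    exact hμ w (by rw [Equiv.eq_symm_apply] at h3; exact h3)

variable {P M N : W → Prop}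

/-- the colour of the third vertex -/
def Qc (ν : W → W) (P N : W → Prop) (w : W) : Prop := (N w ∧ ¬ P (ν w)) ∨ (¬ N w ∧ ¬ P w)

/-- the colour class -/
def cls (ν : W → W) (P M N : W → Prop) : Set (W × Pos) := fun x =>
  match x with
  | (w, .n) => Qc ν P N w
  | (w, .p) => P w
  | (w, .m) => M w

open Classical in
/-- the chosen edges -/
noncomputable def own (ν : W → W) (μ : Equiv.Perm W) (P N : W → Prop) : W × Pos → W × Pos
  | (w, .p) => (μ w, .m)
  | (w, .m) => if N w then (w, .p) else (w, .n)
  | (w, .n) => if N w then (if (P w ↔ Qc ν P N w) then (w, .m) else (w, .p)) else (w, .p)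

theorem Qc_ν (hν : ∀ w, ν (ν w) = w) (h2 : ∀ w, N (ν w) ↔ ¬ N w) (w : W) :
    Qc ν P N (ν w) ↔ Qc ν P N w := by
  unfold Qc
  rw [hν, h2]
  tauto

theorem own_spec (hμ : ∀ w, μ w ≠ w) (h1 : ∀ w, M (μ w) ↔ ¬ P w) (h2 : ∀ w, N (ν w) ↔ ¬ N w)
    (h3 : ∀ w, N w ↔ ¬ (P w ↔ M w)) :
    Own (cross (tri ν μ hν hν') (cls ν P M N)) (own ν μ P N) := by
  classical
  constructor
  · rintro ⟨w, _ | _ | _⟩
    · by_cases hN : N w
      · by_cases hP : P w ↔ Qc ν P N w
        · have e : own ν μ P N (w, .n) = (w, .m) := by simp [own, hN, hP]
          rw [e]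
          refine ⟨rfl, ?_⟩
          change Qc ν P N w ↔ ¬ M w
          exact prop1 hN hP (h3 w)
        · have e : own ν μ P N (w, .n) = (w, .p) := by simp [own, hN, hP]
          rw [e]
          refine ⟨rfl, ?_⟩
          change Qc ν P N w ↔ ¬ P w
          exact prop2 hP
      · have e : own ν μ P N (w, .n) = (w, .p) := by simp [own, hN]
        rw [e]
        refine ⟨rfl, ?_⟩
        change Qc ν P N w ↔ ¬ P w
        unfold Qc
        tauto
    · refine ⟨Or.inr rfl, ?_⟩
      change P w ↔ ¬ M (μ w)
      have := h1 w
      tauto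
    · by_cases hN : N w
      · have e : own ν μ P N (w, .m) = (w, .p) := by simp [own, hN]
        rw [e]
        refine ⟨Or.inl rfl, ?_⟩
        change M w ↔ ¬ P w
        have := h3 w
        tauto
      · have e : own ν μ P N (w, .m) = (w, .n) := by simp [own, hN]
        rw [e]
        refine ⟨rfl, ?_⟩
        change M w ↔ ¬ Qc ν P N w
        unfold Qc
        have := h3 w
        tauto
  · -- uniqueness, first for ordered pairs
    have key : ∀ x y : W × Pos, (cross (tri ν μ hν hν') (cls ν P M N)).Adj x y →
        (own ν μ P N x = y ∧ own ν μ P N y ≠ x) ∨ (own ν μ P N x ≠ y ∧ own ν μ P N y = x) := by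
      rintro ⟨w, _ | _ | _⟩ ⟨w', _ | _ | _⟩ ⟨hadj, hc⟩
      · exfalso
        have h' : w' = ν w := hadj
        subst h'
        have hc' : Qc ν P N w ↔ ¬ Qc ν P N (ν w) := hc
        rw [Qc_ν hν h2] at hc'
        tauto
      · have h' : w = w' := hadj
        subst h'
        have hc' : Qc ν P N w ↔ ¬ P w := hc
        by_cases hN : N w
        · left
          have hP : ¬ (P w ↔ Qc ν P N w) := by tauto
          constructor
          · simp [own, hN, hP]
          · simp [own]
        · left
          constructor
          · simp [own, hN]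
          · simp [own]
      · have h' : w = w' := hadj
        subst h'
        have hc' : Qc ν P N w ↔ ¬ M w := hc
        by_cases hN : N w
        · left
          have hP : (P w ↔ Qc ν P N w) := prop3 hN hc' (h3 w)
          constructor
          · simp [own, hN, hP]
          · simp [own, hN]
        · right
          constructor
          · simp [own, hN]
          · simp [own, hN]
      · have h' : w = w' := hadj
        subst h'
        have hc' : P w ↔ ¬ Qc ν P N w := hc
        by_cases hN : N w
        · right
          have hP : ¬ (P w ↔ Qc ν P N w) := by tauto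
          constructor
          · simp [own]
          · simp [own, hN, hP]
        · right
          constructor
          · simp [own]
          · simp [own, hN]
      · exact absurd hadj (fun h => h)
      · rcases hadj with h' | h'
        · subst h'
          have hc' : P w ↔ ¬ M w := hc
          have hN : N w := by have := h3 w; tauto
          right
          constructor
          · simp [own, hμ w]
          · simp [own, hN]
        · subst h'
          left
          constructor
          · simp [own]
          · intro h
            by_cases hN : N (μ w)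
            · have h4 : own ν μ P N (μ w, .m) = (μ w, .p) := by simp [own, hN]
              rw [h4] at h
              exact hμ w (congrArg Prod.fst h)
            · have h4 : own ν μ P N (μ w, .m) = (μ w, .n) := by simp [own, hN]
              rw [h4] at h
              simp at h
      · have h' : w = w' := hadj
        subst h'
        have hc' : M w ↔ ¬ Qc ν P N w := hc
        by_cases hN : N w
        · right
          have hP : (P w ↔ Qc ν P N w) := prop4 hN hc' (h3 w)
          constructor
          · simp [own, hN]
          · simp [own, hN, hP]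
        · left
          constructor
          · simp [own, hN]
          · simp [own, hN]
      · rcases hadj with h' | h'
        · subst h'
          have hc' : M w ↔ ¬ P w := hc
          have hN : N w := by have := h3 w; tauto
          left
          constructor
          · simp [own, hN]
          · simp [own, hμ w]
        · subst h'
          right
          constructor
          · intro h
            by_cases hN : N (μ w')
            · have h4 : own ν μ P N (μ w', .m) = (μ w', .p) := by simp [own, hN]
              rw [h4] at h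
              exact hμ w' (congrArg Prod.fst h)
            · have h4 : own ν μ P N (μ w', .m) = (μ w', .n) := by simp [own, hN]
              rw [h4] at h
              simp at h
          · simp [own]
      · exact absurd hadj (fun h => h)
    exact key

end

end Pool.Agent.LinFor
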