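import Pool.Agent.LinFor.Model

/-!
# The two colour classes of a triangle graph
-/

set_option autoImplicit false
set_option linter.unusedSectionVars false

namespace Pool.Agent.LinFor

open SimpleGraph

variable {W : Type*} {ν : W → W} {μ : Equiv.Perm W} {hν : ∀ w, ν (ν w) = w}
  {hν' : ∀ w, ν w ≠ w} {P M N : W → Prop}

theorem mem_cls_n {w : W} : ((w, Pos.n) : W × Pos) ∈ cls ν P M N ↔ Qc ν P N w := Iff.rfl
theorem mem_cls_p {w : W} : ((w, Pos.p) : W × Pos) ∈ cls ν P M N ↔ P w := Iff.rfl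
theorem mem_cls_m {w : W} : ((w, Pos.m) : W × Pos) ∈ cls ν P M N ↔ M w := Iff.rfl

theorem mono_adj (h1 : ∀ w, M (μ w) ↔ ¬ P w) {x y : W × Pos}
    (hxy : x ∈ cls ν P M N ↔ y ∈ cls ν P M N) :
    (tri ν μ hν hν').Adj x y ↔
      (x.1 = y.1 ∧ x.2 ≠ y.2) ∨ (x.2 = .n ∧ y.2 = .n ∧ y.1 = ν x.1) := by
  rcases x with ⟨w, _ | _ | _⟩ <;> rcases y with ⟨w', _ | _ | _⟩
  · change w' = ν w ↔ _; simp
  · change w = w' ↔ _; simp
  · change w = w' ↔ _; simp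
  · change w = w' ↔ _; simp
  · change False ↔ _; simp
  · change (w = w' ∨ w' = μ w) ↔ _
    constructor
    · rintro (h | h)
      · left; exact ⟨h, by simp⟩
      · exfalso
        subst h
        rw [mem_cls_p, mem_cls_m, h1] at hxy
        tauto
    · rintro (h | h)
      · exact Or.inl h.1
      · simp at h
  · change w = w' ↔ _; simp
  · change (w = w' ∨ w = μ w') ↔ _
    constructor
    · rintro (h | h)
      · left; exact ⟨h, by simp⟩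
      · exfalso
        subst h
        rw [mem_cls_p, mem_cls_m, h1] at hxy
        tauto
    · rintro (h | h)
      · exact Or.inl h.1
      · simp at h
  · change False ↔ _; simp

theorem two_imp (h1 : ∀ w, M (μ w) ↔ ¬ P w) (h3 : ∀ w, N w ↔ ¬ (P w ↔ M w))
    (x : cls ν P M N)
    (h : ∃ a b, a ≠ b ∧ ((tri ν μ hν hν').induce (cls ν P M N)).Adj x a ∧
      ((tri ν μ hν hν').induce (cls ν P M N)).Adj x b) :
    x.1.2 = .n ∧ N x.1.1 := by
  obtain ⟨⟨a, ha⟩, ⟨b, hb⟩, hab, hxa, hxb⟩ := h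
  obtain ⟨x, hx⟩ := x
  have hxa' : (tri ν μ hν hν').Adj x a := hxa
  have hxb' : (tri ν μ hν hν').Adj x b := hxb
  rw [mono_adj h1 (M := M) (N := N) ⟨fun _ => ha, fun _ => hx⟩] at hxa'
  rw [mono_adj h1 (M := M) (N := N) ⟨fun _ => hb, fun _ => hx⟩] at hxb'
  have hab' : a ≠ b := fun h => hab (Subtype.ext h)
  rcases x with ⟨w, _ | _ | _⟩
  · refine ⟨rfl, ?_⟩
    change N w
    by_contra hN
    have hQ : Qc ν P N w := hx
    have hP : ¬ P w := by unfold Qc at hQ; tauto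
    have hM : ¬ M w := by have := h3 w; tauto
    have key : ∀ y : W × Pos, y ∈ cls ν P M N →
        ((w = y.1 ∧ Pos.n ≠ y.2) ∨ (Pos.n = .n ∧ y.2 = .n ∧ y.1 = ν w)) → y = (ν w, .n) := by
      rintro ⟨w', _ | _ | _⟩ hy h
      · rcases h with h | h
        · exact absurd rfl h.2
        · rw [show w' = ν w from h.2.2]
      · rcases h with h | h
        · have h' : w = w' := h.1
          subst h'
          exact absurd hy hP
        · simp at h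
      · rcases h with h | h
        · have h' : w = w' := h.1
          subst h'
          exact absurd hy hM
        · simp at h
    exact hab' ((key a ha hxa').trans (key b hb hxb').symm)
  · exfalso
    have hP : P w := hx
    have key : ∀ y : W × Pos, y ∈ cls ν P M N →
        ((w = y.1 ∧ Pos.p ≠ y.2) ∨ (Pos.p = .n ∧ y.2 = .n ∧ y.1 = ν w)) →
        (y = (w, .n) ∧ Qc ν P N w) ∨ (y = (w, .m) ∧ M w) := by
      rintro ⟨w', _ | _ | _⟩ hy h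
      · rcases h with h | h
        · have h' : w = w' := h.1
          subst h'
          exact Or.inl ⟨rfl, hy⟩
        · simp at h
      · rcases h with h | h
        · exact absurd rfl h.2
        · simp at h
      · rcases h with h | h
        · have h' : w = w' := h.1
          subst h'
          exact Or.inr ⟨rfl, hy⟩
        · simp at h
    have h4 : ¬ (Qc ν P N w ∧ M w) := by
      rintro ⟨hq, hm⟩
      have := h3 w
      unfold Qc at hq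
      tauto
    rcases key a ha hxa' with ⟨rfl, ha'⟩ | ⟨rfl, ha'⟩ <;>
      rcases key b hb hxb' with ⟨rfl, hb'⟩ | ⟨rfl, hb'⟩
    · exact hab' rfl
    · exact h4 ⟨ha', hb'⟩
    · exact h4 ⟨hb', ha'⟩
    · exact hab' rfl
  · exfalso
    have hM : M w := hx
    have key : ∀ y : W × Pos, y ∈ cls ν P M N →
        ((w = y.1 ∧ Pos.m ≠ y.2) ∨ (Pos.m = .n ∧ y.2 = .n ∧ y.1 = ν w)) →
        (y = (w, .n) ∧ Qc ν P N w) ∨ (y = (w, .p) ∧ P w) := by
      rintro ⟨w', _ | _ | _⟩ hy h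
      · rcases h with h | h
        · have h' : w = w' := h.1
          subst h'
          exact Or.inl ⟨rfl, hy⟩
        · simp at h
      · rcases h with h | h
        · have h' : w = w' := h.1
          subst h'
          exact Or.inr ⟨rfl, hy⟩
        · simp at h
      · rcases h with h | h
        · exact absurd rfl h.2
        · simp at h
    have h4 : ¬ (Qc ν P N w ∧ P w) := by
      rintro ⟨hq, hp⟩
      have := h3 w
      unfold Qc at hq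
      tauto
    rcases key a ha hxa' with ⟨rfl, ha'⟩ | ⟨rfl, ha'⟩ <;>
      rcases key b hb hxb' with ⟨rfl, hb'⟩ | ⟨rfl, hb'⟩
    · exact hab' rfl
    · exact h4 ⟨ha', hb'⟩
    · exact h4 ⟨hb', ha'⟩
    · exact hab' rfl

theorem cls_forest [Finite W] (hμ : ∀ w, μ w ≠ w) (h1 : ∀ w, M (μ w) ↔ ¬ P w)
    (h2 : ∀ w, N (ν w) ↔ ¬ N w) (h3 : ∀ w, N w ↔ ¬ (P w ↔ M w)) :
    LinearForest 2 ((tri ν μ hν hν').induce (cls ν P M N)) := by
  have hown := own_spec (hν := hν) (hν' := hν') hμ h1 h2 h3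
  refine small_forest ?_ ?_
  · intro v
    have h4 := card_fib (tri_cubic hμ) hown v.2
    rw [card_induce]
    omega
  · intro x y hxy hx hy
    obtain ⟨hx1, hx2⟩ := two_imp h1 h3 x hx
    obtain ⟨hy1, hy2⟩ := two_imp h1 h3 y hy
    have hxy' : (tri ν μ hν hν').Adj x.1 y.1 := hxy
    rw [mono_adj h1 (M := M) (N := N) ⟨fun _ => y.2, fun _ => x.2⟩] at hxy'
    rcases hxy' with h | h
    · exact h.2 (hx1.trans hy1.symm)
    · rw [h.2.2, h2] at hy2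
      exact hy2 hx2

theorem exists_swap [Finite W] (hν : ∀ w, ν (ν w) = w) (h1 : ∀ w, M (μ w) ↔ ¬ P w)
    (h2 : ∀ w, N (ν w) ↔ ¬ N w) (h3 : ∀ w, N w ↔ ¬ (P w ↔ M w)) :
    ∃ Θ : W → W, (∀ w, Θ (Θ w) = w) ∧ (∀ w, Θ (ν w) = ν (Θ w)) ∧ (∀ w, N (Θ w) ↔ N w) ∧
      ∀ w, ¬ N w → (P (Θ w) ↔ ¬ P w) := by
  classical
  have hA : {w | P w}.ncard = {w | P w ∧ M w}.ncard + {w | P w ∧ ¬ M w}.ncard := by
    rw [← Set.ncard_union_eq ?_ (Set.toFinite _) (Set.toFinite _)]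
    · congr 1
      ext w
      simp only [Set.mem_union, Set.mem_ofPred_eq]
      tauto
    · rw [Set.disjoint_left]
      rintro w ⟨_, h⟩ ⟨_, h'⟩
      exact h' h
  have hB : {w | ¬ M w}.ncard = {w | ¬ P w ∧ ¬ M w}.ncard + {w | P w ∧ ¬ M w}.ncard := by
    rw [← Set.ncard_union_eq ?_ (Set.toFinite _) (Set.toFinite _)]
    · congr 1
      ext w
      simp only [Set.mem_union, Set.mem_ofPred_eq]
      tauto
    · rw [Set.disjoint_left]
      rintro w ⟨h, _⟩ ⟨h', _⟩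
      exact h h'
  have hC : {w | P w}.ncard = {w | ¬ M w}.ncard := by
    rw [← Set.ncard_image_of_injective _ μ.injective]
    congr 1
    ext w
    simp only [Set.mem_image, Set.mem_ofPred_eq]
    constructor
    · rintro ⟨x, hx, rfl⟩
      rw [h1]; tauto
    · intro hw
      refine ⟨μ.symm w, ?_, by simp⟩
      have := h1 (μ.symm w)
      rw [Equiv.apply_symm_apply] at this
      tauto
  have hD : {w | ¬ P w ∧ ¬ M w}.ncard = {w | P w ∧ M w}.ncard := by omega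
  rw [← Nat.card_coe_set_eq, ← Nat.card_coe_set_eq] at hD
  obtain ⟨e⟩ := Finite.card_eq.1 hD
  set Θ₀ : W → W := fun w =>
    if h : ¬ P w ∧ ¬ M w then (e ⟨w, h⟩ : W)
    else if h' : P w ∧ M w then (e.symm ⟨w, h'⟩ : W) else w with hΘ₀
  have hz : ∀ w (h : ¬ P w ∧ ¬ M w), Θ₀ w = (e ⟨w, h⟩ : W) := by
    intro w h; simp only [hΘ₀]; rw [dif_pos h]
  have ho : ∀ w (h : P w ∧ M w), Θ₀ w = (e.symm ⟨w, h⟩ : W) := by
    intro w h
    have h' : ¬ (¬ P w ∧ ¬ M w) := by tauto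
    simp only [hΘ₀]; rw [dif_neg h', dif_pos h]
  have hcase : ∀ w, ¬ N w → (¬ P w ∧ ¬ M w) ∨ (P w ∧ M w) := by
    intro w hw
    have := h3 w
    tauto
  have hinv : ∀ w, ¬ N w → Θ₀ (Θ₀ w) = w ∧ ¬ N (Θ₀ w) ∧ (P (Θ₀ w) ↔ ¬ P w) := by
    intro w hw
    rcases hcase w hw with h | h
    · have h4 : P (e ⟨w, h⟩ : W) ∧ M (e ⟨w, h⟩ : W) := (e ⟨w, h⟩).2
      rw [hz w h]
      refine ⟨?_, ?_, ?_⟩
      · rw [ho _ h4]
        have : (⟨(e ⟨w, h⟩ : W), h4⟩ : {w | P w ∧ M w}) = e ⟨w, h⟩ := Subtype.ext rfl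
        rw [this, Equiv.symm_apply_apply]
      · rw [h3]; tauto
      · tauto
    · have h4 : ¬ P (e.symm ⟨w, h⟩ : W) ∧ ¬ M (e.symm ⟨w, h⟩ : W) := (e.symm ⟨w, h⟩).2
      rw [ho w h]
      refine ⟨?_, ?_, ?_⟩
      · rw [hz _ h4]
        have : (⟨(e.symm ⟨w, h⟩ : W), h4⟩ : {w | ¬ P w ∧ ¬ M w}) = e.symm ⟨w, h⟩ :=
          Subtype.ext rfl
        rw [this, Equiv.apply_symm_apply]
      · rw [h3]; tauto
      · tauto
  set Θ : W → W := fun w => if N w then ν (Θ₀ (ν w)) else Θ₀ w with hΘ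
  have hΘN : ∀ w, N w → Θ w = ν (Θ₀ (ν w)) := fun w h => by simp only [hΘ]; rw [if_pos h]
  have hΘN' : ∀ w, ¬ N w → Θ w = Θ₀ w := fun w h => by simp only [hΘ]; rw [if_neg h]
  have hN1 : ∀ w, N w → ¬ N (ν w) := fun w h => by rw [h2]; tauto
  refine ⟨Θ, ?_, ?_, ?_, ?_⟩
  · intro w
    by_cases hw : N w
    · obtain ⟨h4, h5, h6⟩ := hinv _ (hN1 w hw)
      have h7 : N (ν (Θ₀ (ν w))) := by rw [h2]; exact h5
      rw [hΘN w hw, hΘN _ h7, hν, h4, hν]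
    · obtain ⟨h4, h5, h6⟩ := hinv _ hw
      rw [hΘN' w hw, hΘN' _ h5, h4]
  · intro w
    by_cases hw : N w
    · rw [hΘN w hw, hΘN' _ (hN1 w hw), hν]
    · have h7 : N (ν w) := by rw [h2]; exact hw
      rw [hΘN' w hw, hΘN _ h7, hν]
  · intro w
    by_cases hw : N w
    · obtain ⟨h4, h5, h6⟩ := hinv _ (hN1 w hw)
      rw [hΘN w hw, h2]
      tauto
    · obtain ⟨h4, h5, h6⟩ := hinv _ hw
      rw [hΘN' w hw]
      tauto
  · intro w hw
    obtain ⟨h4, h5, h6⟩ := hinv _ hw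
    rw [hΘN' w hw]
    exact h6

open Classical in
/-- the colour exchanging map -/
noncomputable def Dm (Θ : W → W) (P : W → Prop) : W × Pos → W × Pos
  | (w, .n) => (Θ w, .n)
  | (w, .p) => if (P (Θ w) ↔ P w) then (Θ w, .m) else (Θ w, .p)
  | (w, .m) => if (P (Θ w) ↔ P w) then (Θ w, .p) else (Θ w, .m)

theorem Dm_n {Θ : W → W} (w : W) : Dm Θ P (w, .n) = (Θ w, .n) := rfl
theorem Dm_p1 {Θ : W → W} {w : W} (h : P (Θ w) ↔ P w) : Dm Θ P (w, .p) = (Θ w, .m) := by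
  simp [Dm, h]
theorem Dm_p2 {Θ : W → W} {w : W} (h : ¬ (P (Θ w) ↔ P w)) : Dm Θ P (w, .p) = (Θ w, .p) := by
  simp only [Dm]; rw [if_neg h]
theorem Dm_m1 {Θ : W → W} {w : W} (h : P (Θ w) ↔ P w) : Dm Θ P (w, .m) = (Θ w, .p) := by
  simp [Dm, h]
theorem Dm_m2 {Θ : W → W} {w : W} (h : ¬ (P (Θ w) ↔ P w)) : Dm Θ P (w, .m) = (Θ w, .m) := by
  simp only [Dm]; rw [if_neg h]

theorem Dm_fst {Θ : W → W} (x : W × Pos) : (Dm Θ P x).1 = Θ x.1 := by
  rcases x with ⟨w, _ | _ | _⟩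
  · rfl
  · by_cases h : P (Θ w) ↔ P w
    · rw [Dm_p1 h]
    · rw [Dm_p2 h]
  · by_cases h : P (Θ w) ↔ P w
    · rw [Dm_m1 h]
    · rw [Dm_m2 h]

theorem Dm_snd {Θ : W → W} (x : W × Pos) : (Dm Θ P x).2 = .n ↔ x.2 = .n := by
  rcases x with ⟨w, _ | _ | _⟩
  · exact Iff.rfl
  · by_cases h : P (Θ w) ↔ P w
    · rw [Dm_p1 h]; simp
    · rw [Dm_p2 h]
  · by_cases h : P (Θ w) ↔ P w
    · rw [Dm_m1 h]; simp
    · rw [Dm_m2 h]

theorem Dm_Dm {Θ : W → W} (hΘ : ∀ w, Θ (Θ w) = w) (x : W × Pos) : Dm Θ P (Dm Θ P x) = x := by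
  rcases x with ⟨w, _ | _ | _⟩
  · rw [Dm_n, Dm_n, hΘ]
  · by_cases h : P (Θ w) ↔ P w
    · have h' : P (Θ (Θ w)) ↔ P (Θ w) := by rw [hΘ]; exact h.symm
      rw [Dm_p1 h, Dm_m1 h', hΘ]
    · have h' : ¬ (P (Θ (Θ w)) ↔ P (Θ w)) := by rw [hΘ]; exact fun h'' => h h''.symm
      rw [Dm_p2 h, Dm_p2 h', hΘ]
  · by_cases h : P (Θ w) ↔ P w
    · have h' : P (Θ (Θ w)) ↔ P (Θ w) := by rw [hΘ]; exact h.symm
      rw [Dm_m1 h, Dm_p1 h', hΘ]
    · have h' : ¬ (P (Θ (Θ w)) ↔ P (Θ w)) := by rw [hΘ]; exact fun h'' => h h''.symm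
      rw [Dm_m2 h, Dm_m2 h', hΘ]

theorem prop5 {p p' m' : Prop} (h : p' ↔ p) (hm : m' ↔ ¬ p') : m' ↔ ¬ p := by
  by_cases hp : p <;> by_cases hp' : p' <;> by_cases hm : m' <;> simp_all

theorem prop6 {p p' : Prop} (h : ¬ (p' ↔ p)) : p' ↔ ¬ p := by
  by_cases hp : p <;> by_cases hp' : p' <;> simp_all

theorem prop7 {p m n : Prop} (hn : n) (h : n ↔ ¬ (p ↔ m)) : m ↔ ¬ p := by
  by_cases hp : p <;> by_cases hm : m <;> simp_all

theorem prop8 {p m n : Prop} (hn : ¬ n) (h : n ↔ ¬ (p ↔ m)) : m ↔ p := by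
  by_cases hp : p <;> by_cases hm : m <;> simp_all

theorem Dm_cls {Θ : W → W} (h2 : ∀ w, N (ν w) ↔ ¬ N w) (h3 : ∀ w, N w ↔ ¬ (P w ↔ M w))
    (hΘν : ∀ w, Θ (ν w) = ν (Θ w)) (hΘN : ∀ w, N (Θ w) ↔ N w)
    (hΘP : ∀ w, ¬ N w → (P (Θ w) ↔ ¬ P w)) (x : W × Pos) :
    Dm Θ P x ∈ cls ν P M N ↔ x ∉ cls ν P M N := by
  rcases x with ⟨w, _ | _ | _⟩
  · rw [Dm_n, mem_cls_n, mem_cls_n]
    unfold Qc
    rw [hΘN, ← hΘν]
    by_cases hN : N w
    · have h4 := hΘP (ν w) (by rw [h2]; tauto)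
      tauto
    · have h4 := hΘP w hN
      tauto
  · by_cases h : P (Θ w) ↔ P w
    · have hN : N w := by
        by_contra hN
        have h4 := hΘP w hN
        tauto
      rw [Dm_p1 h, mem_cls_m, mem_cls_p]
      exact prop5 h (prop7 ((hΘN w).2 hN) (h3 (Θ w)))
    · rw [Dm_p2 h, mem_cls_p, mem_cls_p]
      exact prop6 h
  · by_cases h : P (Θ w) ↔ P w
    · have hN : N w := by
        by_contra hN
        have h4 := hΘP w hN
        tauto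
      rw [Dm_m1 h, mem_cls_m, mem_cls_p]
      have h5 := prop7 hN (h3 w)
      tauto
    · rw [Dm_m2 h, mem_cls_m, mem_cls_m]
      by_cases hN : N w
      · have h5 := prop7 hN (h3 w)
        have h6 := prop7 ((hΘN w).2 hN) (h3 (Θ w))
        have h7 := prop6 h
        tauto
      · have h5 := prop8 hN (h3 w)
        have h6 := prop8 (fun h' => hN ((hΘN w).1 h')) (h3 (Θ w))
        have h7 := prop6 h
        tauto

theorem cls_iso [Finite W] (h1 : ∀ w, M (μ w) ↔ ¬ P w)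
    (h2 : ∀ w, N (ν w) ↔ ¬ N w) (h3 : ∀ w, N w ↔ ¬ (P w ↔ M w)) :
    Nonempty ((tri ν μ hν hν').induce (cls ν P M N) ≃g
      (tri ν μ hν hν').induce (cls ν P M N)ᶜ) := by
  obtain ⟨Θ, hΘ, hΘν, hΘN, hΘP⟩ := exists_swap hν h1 h2 h3
  have hc := Dm_cls (M := M) h2 h3 hΘν hΘN hΘP
  set D : W × Pos ≃ W × Pos := ⟨Dm Θ P, Dm Θ P, Dm_Dm hΘ, Dm_Dm hΘ⟩ with hD
  refine ⟨⟨D.subtypeEquiv (fun x => ?_), ?_⟩⟩
  · change x ∈ cls ν P M N ↔ ¬ (Dm Θ P x ∈ cls ν P M N)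
    rw [hc]; tauto
  · rintro ⟨x, hx⟩ ⟨y, hy⟩
    change (tri ν μ hν hν').Adj (Dm Θ P x) (Dm Θ P y) ↔ (tri ν μ hν hν').Adj x y
    rw [mono_adj h1 (M := M) (N := N) (x := x) (y := y) ⟨fun _ => hy, fun _ => hx⟩,
      mono_adj h1 (M := M) (N := N) (x := Dm Θ P x) (y := Dm Θ P y)
        (by rw [hc, hc]; exact ⟨fun h => absurd hx h, fun h => absurd hy h⟩)]
    rw [Dm_fst, Dm_fst, Dm_snd, Dm_snd]
    have hΘi : Function.Injective Θ := fun a b h => by rw [← hΘ a, h, hΘ]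
    have hDi : Function.Injective (Dm Θ P) := fun a b h => by
      rw [← Dm_Dm (P := P) hΘ a, h, Dm_Dm hΘ]
    have e1 : (Θ x.1 = Θ y.1 ∧ (Dm Θ P x).2 ≠ (Dm Θ P y).2) ↔ (x.1 = y.1 ∧ x.2 ≠ y.2) := by
      constructor
      · rintro ⟨h, h'⟩
        refine ⟨hΘi h, fun h'' => h' ?_⟩
        rw [Prod.ext (hΘi h) h'']
      · rintro ⟨h, h'⟩
        refine ⟨congrArg Θ h, fun h'' => h' ?_⟩
        have h5 : Dm Θ P x = Dm Θ P y := Prod.ext (by rw [Dm_fst, Dm_fst, h]) h''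
        rw [hDi h5]
    have e2 : Θ y.1 = ν (Θ x.1) ↔ y.1 = ν x.1 := by
      rw [← hΘν]
      exact hΘi.eq_iff
    rw [e1, e2]

theorem tri_decomp [Finite W] (hμ : ∀ w, μ w ≠ w) (h1 : ∀ w, M (μ w) ↔ ¬ P w)
    (h2 : ∀ w, N (ν w) ↔ ¬ N w) (h3 : ∀ w, N w ↔ ¬ (P w ↔ M w)) :
    ∃ F₁ F₂ : SimpleGraph (W × Pos), LinearForest 4 F₁ ∧ LinearForest 4 F₂ ∧
      F₁ ⊔ F₂ = tri ν μ hν hν' ∧ Disjoint F₁ F₂ ∧ Nonempty (F₁ ≃g F₂) :=
  forward_own (tri_cubic hμ) (own_spec hμ h1 h2 h3) (cls_forest hμ h1 h2 h3) (cls_iso h1 h2 h3)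

end Pool.Agent.LinFor
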