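import Mathlib

/-!
# Even orientations of connected graphs with an even number of edges
-/

set_option autoImplicit false
set_option linter.unusedSectionVars false
set_option linter.unusedSimpArgs false

namespace Pool.Agent.LinFor

open SimpleGraph

variable {W : Type*} [Fintype W] [DecidableEq W] {H : SimpleGraph W}

/-- `t` is the degree function modulo two of an edge set of `H` -/
def Ach (H : SimpleGraph W) (t : W → ZMod 2) : Prop :=
  ∃ j : W → W → ZMod 2, (∀ u v, j u v = j v u) ∧ (∀ u v, ¬ H.Adj u v → j u v = 0) ∧
    ∀ w, ∑ v, j w v = t w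

theorem Ach.zero : Ach H 0 := ⟨0, fun _ _ => rfl, fun _ _ _ => rfl, fun w => by simp⟩

theorem Ach.add {s t : W → ZMod 2} (hs : Ach H s) (ht : Ach H t) : Ach H (s + t) := by
  obtain ⟨j, h1, h2, h3⟩ := hs
  obtain ⟨j', h1', h2', h3'⟩ := ht
  refine ⟨j + j', fun u v => ?_, fun u v h => ?_, fun w => ?_⟩
  · simp only [Pi.add_apply]; rw [h1 u v, h1' u v]
  · simp only [Pi.add_apply]; rw [h2 u v h, h2' u v h, add_zero]
  · simp only [Pi.add_apply]; rw [Finset.sum_add_distrib, h3, h3']

theorem Ach.sum {ι : Type*} (s : Finset ι) {t : ι → W → ZMod 2} (h : ∀ i ∈ s, Ach H (t i)) :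
    Ach H (∑ i ∈ s, t i) := by
  classical
  induction s using Finset.induction_on with
  | empty => simpa using Ach.zero
  | insert i s hi ih =>
    rw [Finset.sum_insert hi]
    exact (h i (by simp)).add (ih fun k hk => h k (by simp [hk]))

theorem Ach.adj {u v : W} (h : H.Adj u v) : Ach H (Pi.single u 1 + Pi.single v 1) := by
  refine ⟨fun a b => if (a = u ∧ b = v) ∨ (a = v ∧ b = u) then 1 else 0, ?_, ?_, ?_⟩
  · intro a b
    have : ((a = u ∧ b = v) ∨ (a = v ∧ b = u)) ↔ ((b = u ∧ a = v) ∨ (b = v ∧ a = u)) := by tauto
    simp only [this]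
  · intro a b hab
    beta_reduce
    rw [if_neg]
    rintro (⟨rfl, rfl⟩ | ⟨rfl, rfl⟩)
    · exact hab h
    · exact hab h.symm
  · intro w
    have hne : u ≠ v := h.ne
    by_cases hu : w = u
    · subst hu
      have : ∀ b, ((w = w ∧ b = v) ∨ (w = v ∧ b = w)) ↔ b = v := by
        intro b
        constructor
        · rintro (h | h)
          · exact h.2
          · exact absurd h.1 hne
        · intro h; exact Or.inl ⟨rfl, h⟩
      simp only [this]
      simp [Pi.single_apply, hne]
    · by_cases hv : w = v
      · subst hv
        have : ∀ b, ((w = u ∧ b = w) ∨ (w = w ∧ b = u)) ↔ b = u := by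
          intro b
          constructor
          · rintro (h | h)
            · exact absurd h.1 hu
            · exact h.2
          · intro h; exact Or.inr ⟨rfl, h⟩
        simp only [this]
        simp [Pi.single_apply, hu]
      · have : ∀ b, ¬ ((w = u ∧ b = v) ∨ (w = v ∧ b = u)) := by
          intro b; tauto
        simp [this, Pi.single_apply, hu, hv]

theorem Ach.walk {u v : W} (p : H.Walk u v) : Ach H (Pi.single u 1 + Pi.single v 1) := by
  induction p with
  | @nil a =>
    have : (Pi.single a (1 : ZMod 2) + Pi.single a 1 : W → ZMod 2) = 0 := by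
      ext w
      exact CharTwo.add_self_eq_zero _
    rw [this]
    exact Ach.zero
  | @cons a b c h p ih =>
    have h1 := (Ach.adj h).add ih
    have e : (Pi.single a 1 + Pi.single b 1 + (Pi.single b 1 + Pi.single c 1) : W → ZMod 2) =
        Pi.single a 1 + Pi.single c 1 := by
      have : (Pi.single b (1 : ZMod 2) + Pi.single b 1 : W → ZMod 2) = 0 := by
        ext w
        exact CharTwo.add_self_eq_zero _
      calc _ = Pi.single a 1 + (Pi.single b 1 + Pi.single b 1) + Pi.single c 1 := by abel
        _ = _ := by rw [this, add_zero]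
    rwa [e] at h1

theorem Ach.of_sum (hc : H.Connected) {t : W → ZMod 2} (ht : ∑ w, t w = 0) : Ach H t := by
  obtain ⟨w0⟩ := hc.nonempty
  have h1 : Ach H (∑ w, (if t w = 1 then (Pi.single w 1 + Pi.single w0 1) else 0)) := by
    refine Ach.sum _ fun w _ => ?_
    split_ifs
    · obtain ⟨p⟩ := hc.preconnected w w0
      exact Ach.walk p
    · exact Ach.zero
  have h2 : ∀ w, (if t w = 1 then (Pi.single w 1 + Pi.single w0 1) else 0 : W → ZMod 2) =
      Pi.single w (t w) + Pi.single w0 (t w) := by
    intro w
    have h3 : t w = 0 ∨ t w = 1 := by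
      generalize t w = x
      revert x; decide
    rcases h3 with h3 | h3
    · rw [h3]; simp
    · rw [h3]; simp
  simp only [h2] at h1
  rw [Finset.sum_add_distrib] at h1
  have h4 : (∑ w, Pi.single w (t w) : W → ZMod 2) = t := Finset.univ_sum_single t
  have h5 : (∑ w, Pi.single w0 (t w) : W → ZMod 2) = 0 := by
    have : (∑ w, Pi.single w0 (t w) : W → ZMod 2) = Pi.single w0 (∑ w, t w) := by
      ext x
      rw [Finset.sum_apply]
      by_cases hx : x = w0
      · subst hx; simp
      · simp [Pi.single_apply, hx]
    rw [this, ht]; simp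
  rwa [h4, h5, add_zero] at h1

/-- an orientation of a connected graph with an even number of edges in which all
out-degrees are even -/
theorem exists_even_orientation [DecidableRel H.Adj] (hc : H.Connected)
    (hcard : ∑ w, H.degree w ≡ 0 [MOD 4]) :
    ∃ c : W → W → ZMod 2, (∀ u v, H.Adj u v → c u v + c v u = 1) ∧
      ∀ w, ∑ v ∈ H.neighborFinset w, c w v = 0 := by
  classical
  obtain ⟨e⟩ := Fintype.truncEquivFin W |>.nonempty
  set c0 : W → W → ZMod 2 := fun u v => if e u < e v then 1 else 0 with hc0
  have hc0s : ∀ u v, u ≠ v → c0 u v + c0 v u = 1 := by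
    intro u v huv
    have h1 : e u ≠ e v := fun h => huv (e.injective h)
    rcases lt_or_gt_of_ne h1 with h | h
    · simp [hc0, h, not_lt.2 h.le]
    · simp [hc0, h, not_lt.2 h.le]
  set t : W → ZMod 2 := fun w => ∑ v ∈ H.neighborFinset w, c0 w v with ht
  have htsum : ∑ w, t w = 0 := by
    -- twice the number of pairs `u < v` is the degree sum
    set T : Finset (W × W) := Finset.univ.filter fun x => H.Adj x.1 x.2 ∧ e x.1 < e x.2 with hT
    set T' : Finset (W × W) := Finset.univ.filter fun x => H.Adj x.1 x.2 ∧ e x.2 < e x.1 with hT'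
    have h1 : ∑ w, t w = (T.card : ZMod 2) := by
      have h2 : ∀ w, t w = ((Finset.univ.filter fun v => H.Adj w v ∧ e w < e v).card : ZMod 2) := by
        intro w
        simp only [ht, hc0]
        rw [Finset.sum_boole]
        congr 2
        ext v; simp
      simp only [h2]
      rw [← Nat.cast_sum]
      congr 1
      rw [hT, Finset.card_filter, ← Finset.univ_product_univ, Finset.sum_product]
      refine Finset.sum_congr rfl fun w _ => ?_
      rw [Finset.card_filter]
    have h3 : T.card = T'.card := by
      refine Finset.card_bij (fun x _ => (x.2, x.1)) ?_ ?_ ?_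
      · intro x hx
        simp only [hT, hT', Finset.mem_filter, Finset.mem_univ, true_and] at hx ⊢
        exact ⟨hx.1.symm, hx.2⟩
      · intro x _ y _ hxy
        have h4 := congrArg Prod.fst hxy
        have h5 := congrArg Prod.snd hxy
        exact Prod.ext h5 h4
      · intro x hx
        simp only [hT', Finset.mem_filter, Finset.mem_univ, true_and] at hx
        exact ⟨(x.2, x.1), by
          simp only [hT, Finset.mem_filter, Finset.mem_univ, true_and]
          exact ⟨hx.1.symm, hx.2⟩, rfl⟩
    have h4 : T.card + T'.card = ∑ w, H.degree w := by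
      rw [← Finset.card_union_of_disjoint]
      · have h5 : T ∪ T' = Finset.univ.filter fun x : W × W => H.Adj x.1 x.2 := by
          ext x
          simp only [hT, hT', Finset.mem_union, Finset.mem_filter, Finset.mem_univ, true_and]
          constructor
          · rintro (h | h)
            · exact h.1
            · exact h.1
          · intro h
            have h6 : e x.1 ≠ e x.2 := fun h' => h.ne (e.injective h')
            rcases lt_or_gt_of_ne h6 with h7 | h7
            · exact Or.inl ⟨h, h7⟩
            · exact Or.inr ⟨h, h7⟩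
        rw [h5, Finset.card_filter, ← Finset.univ_product_univ, Finset.sum_product]
        refine Finset.sum_congr rfl fun w _ => ?_
        rw [← Finset.card_filter, ← card_neighborFinset_eq_degree]
        congr 1
        ext v; simp
      · rw [Finset.disjoint_left]
        intro x hx hx'
        simp only [hT, hT', Finset.mem_filter, Finset.mem_univ, true_and] at hx hx'
        exact absurd hx.2 (not_lt.2 hx'.2.le)
    have h5 : T.card % 2 = 0 := by
      have h6 : (T.card + T'.card) % 4 = 0 := by rw [h4]; exact hcard
      omega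
    rw [h1]
    have h7 : ((T.card : ℕ) : ZMod 2) = ((T.card % 2 : ℕ) : ZMod 2) := by
      rw [ZMod.natCast_mod]
    rw [h7, h5, Nat.cast_zero]
  obtain ⟨j, hj1, hj2, hj3⟩ := Ach.of_sum hc htsum
  refine ⟨fun u v => c0 u v + j u v, ?_, ?_⟩
  · intro u v h
    have h1 := hc0s u v h.ne
    have h2 : c0 u v + j u v + (c0 v u + j v u) = (c0 u v + c0 v u) + (j u v + j v u) := by abel
    change c0 u v + j u v + (c0 v u + j v u) = 1
    rw [h2, h1, hj1 u v, CharTwo.add_self_eq_zero, add_zero]
  · intro w
    rw [Finset.sum_add_distrib]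
    have h1 : ∑ v ∈ H.neighborFinset w, j w v = ∑ v, j w v := by
      refine Finset.sum_subset (Finset.subset_univ _) ?_
      intro v _ hv
      exact hj2 w v (fun h => hv (by simpa using h))
    rw [h1, hj3]
    exact CharTwo.add_self_eq_zero _

end Pool.Agent.LinFor
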