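import Pool.Agent.LinFor.Model2
import Pool.Agent.LinFor.Tjoin

/-!
# Truncations of cubic graphs
-/

set_option autoImplicit false
set_option linter.unusedSectionVars false

namespace Pool.Agent.LinFor

open SimpleGraph

/-- The truncation of a graph: every vertex is replaced by a clique on the darts leaving it, and
every dart is joined to the reversed dart.  For a cubic graph every vertex is replaced by a
triangle. -/
def truncation {W : Type*} (H : SimpleGraph W) : SimpleGraph H.Dart where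
  Adj d e := d ≠ e ∧ (d.fst = e.fst ∨ e = d.symm)
  symm := ⟨by
    rintro d e ⟨h, h' | h'⟩
    · exact ⟨h.symm, Or.inl h'.symm⟩
    · exact ⟨h.symm, Or.inr (by rw [h', Dart.symm_symm])⟩⟩
  loopless := ⟨fun d h => h.1 rfl⟩

variable {W : Type*}

theorem two_mul_edges [Finite W] (K : SimpleGraph W) :
    2 * K.edgeSet.ncard = ∑ᶠ v, (K.neighborSet v).ncard := by
  classical
  have := Fintype.ofFinite W
  have hdeg : ∀ (v : W), K.degree v = (K.neighborSet v).ncard := by
    intro v
    rw [← card_neighborSet_eq_degree, ← Nat.card_coe_set_eq, Nat.card_eq_fintype_card]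
  have hedge : K.edgeSet.ncard = K.edgeFinset.card := by
    rw [← Set.ncard_coe_finset, coe_edgeFinset]
  have h1 := K.sum_degrees_eq_twice_card_edges
  simp only [hdeg] at h1
  rw [finsum_eq_sum_of_fintype, hedge, h1]

theorem reg2_own [Finite W] {F : SimpleGraph W} (hF : ∀ v, (F.neighborSet v).ncard = 2) :
    ∃ m : W → W, Own F m := by
  classical
  have := Fintype.ofFinite W
  refine exists_own F ?_ ?_
  · have h1 := two_mul_edges F
    rw [finsum_eq_sum_of_fintype] at h1
    simp only [hF, Finset.sum_const, Finset.card_univ, smul_eq_mul] at h1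
    rw [Nat.card_eq_fintype_card]
    omega
  · intro S
    set K : SimpleGraph W :=
      { Adj := fun u v => F.Adj u v ∧ u ∈ S ∧ v ∈ S
        symm := ⟨fun u v h => ⟨h.1.symm, h.2.2, h.2.1⟩⟩
        loopless := ⟨fun v h => F.loopless.irrefl v h.1⟩ } with hK
    have h1 : {e ∈ F.edgeSet | ∀ v ∈ e, v ∈ S} = K.edgeSet := by
      ext e
      induction e using Sym2.ind with
      | _ u v =>
        constructor
        · rintro ⟨h, h'⟩
          exact ⟨h, h' u (Sym2.mem_mk_left u v), h' v (Sym2.mem_mk_right u v)⟩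
        · intro h
          have h' : F.Adj u v ∧ u ∈ S ∧ v ∈ S := h
          refine ⟨h'.1, ?_⟩
          intro x hx
          rcases Sym2.mem_iff.1 hx with rfl | rfl
          · exact h'.2.1
          · exact h'.2.2
    rw [h1]
    have h2 := two_mul_edges K
    rw [finsum_eq_sum_of_fintype] at h2
    have h3 : ∑ v, (K.neighborSet v).ncard ≤ ∑ v, (if v ∈ S then 2 else 0) := by
      refine Finset.sum_le_sum fun v _ => ?_
      split_ifs with hv
      · rw [← hF v]
        exact Set.ncard_le_ncard (fun x hx => hx.1) (Set.toFinite _)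
      · have : K.neighborSet v = ∅ := by
          ext x
          simp only [mem_neighborSet, Set.mem_empty_iff_false, iff_false]
          exact fun h => hv h.2.1
        rw [this, Set.ncard_empty]
    have h4 : ∑ v, (if v ∈ S then 2 else 0) = 2 * S.ncard := by
      rw [← Finset.sum_filter, Finset.sum_const, smul_eq_mul, Set.ncard_eq_toFinset_card' S,
        mul_comm]
      congr 2
      ext v; simp
    omega

theorem own_perm [Finite W] {F : SimpleGraph W} (hF : ∀ v, (F.neighborSet v).ncard = 2)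
    {m : W → W} (hm : Own F m) : Function.Bijective m := by
  refine Finite.injective_iff_bijective.1 ?_
  intro u v huv
  by_contra hne
  set x := m u with hx
  have h1 : F.Adj x u := (hm.1 u).symm
  have h2 : F.Adj x v := by rw [huv]; exact (hm.1 v).symm
  have h3 : ({u, v} : Set W) = F.neighborSet x := by
    refine Set.eq_of_subset_of_ncard_le ?_ ?_ (Set.toFinite _)
    · rintro y (rfl | rfl)
      · exact h1
      · exact h2
    · rw [hF, Set.ncard_pair hne]
  have h4 : m x ∈ ({u, v} : Set W) := by rw [h3]; exact hm.1 x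
  rcases h4 with h4 | h4
  · rcases hm.2 x u h1 with h5 | h5
    · exact h5.2 hx.symm
    · exact h5.1 h4
  · have h4' : m x = v := h4
    rcases hm.2 x v h2 with h5 | h5
    · exact h5.2 huv.symm
    · exact h5.1 h4'

/-- decompositions move along isomorphisms -/
theorem decomp_of_iso {V V' : Type*} [Finite V] {G : SimpleGraph V} {G' : SimpleGraph V'}
    (φ : G ≃g G') {k : ℕ}
    (h : ∃ F₁ F₂ : SimpleGraph V, LinearForest k F₁ ∧ LinearForest k F₂ ∧ F₁ ⊔ F₂ = G ∧
      Disjoint F₁ F₂ ∧ Nonempty (F₁ ≃g F₂)) :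
    ∃ F₁ F₂ : SimpleGraph V', LinearForest k F₁ ∧ LinearForest k F₂ ∧ F₁ ⊔ F₂ = G' ∧
      Disjoint F₁ F₂ ∧ Nonempty (F₁ ≃g F₂) := by
  obtain ⟨F₁, F₂, h1, h2, hs, hd, ⟨ψ⟩⟩ := h
  have iso : ∀ F : SimpleGraph V, Nonempty (F ≃g F.comap φ.symm) := by
    intro F
    refine ⟨⟨φ.toEquiv, ?_⟩⟩
    intro a b
    change F.Adj (φ.symm (φ a)) (φ.symm (φ b)) ↔ _
    rw [φ.symm_apply_apply, φ.symm_apply_apply]
  obtain ⟨i1⟩ := iso F₁
  obtain ⟨i2⟩ := iso F₂
  refine ⟨F₁.comap φ.symm, F₂.comap φ.symm, h1.of_iso i1, h2.of_iso i2, ?_, ?_,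
    ⟨(i1.symm.trans ψ).trans i2⟩⟩
  · ext a b
    have h3 : (F₁ ⊔ F₂).Adj (φ.symm a) (φ.symm b) ↔ G.Adj (φ.symm a) (φ.symm b) := by rw [hs]
    have h4 : G.Adj (φ.symm a) (φ.symm b) ↔ G'.Adj a b := φ.symm.map_adj_iff
    exact h3.trans h4
  · rw [disjoint_iff]
    ext a b
    simp only [bot_adj, iff_false]
    intro h
    have h3 : (F₁ ⊓ F₂).Adj (φ.symm a) (φ.symm b) := ⟨h.1, h.2⟩
    rw [disjoint_iff.1 hd] at h3
    exact h3

/-- the other end of the external edge at a vertex of a triangle -/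
def far (ν : W → W) (μ : Equiv.Perm W) : W × Pos → W
  | (w, .n) => ν w
  | (w, .p) => μ w
  | (w, .m) => μ.symm w

theorem tadj_iff {ν : W → W} {μ : Equiv.Perm W} (hν : ∀ w, ν (ν w) = w) (hν' : ∀ w, ν w ≠ w)
    (h1 : ∀ w, ν w ≠ μ w) (h2 : ∀ w, ν w ≠ μ.symm w) (h3 : ∀ w, μ w ≠ μ.symm w)
    (x y : W × Pos) :
    tadj ν μ x y ↔ x ≠ y ∧ (x.1 = y.1 ∨ (y.1 = far ν μ x ∧ far ν μ y = x.1)) := by
  rcases x with ⟨w, _ | _ | _⟩ <;> rcases y with ⟨w', _ | _ | _⟩
  · change w' = ν w ↔ ((w, Pos.n) ≠ (w', Pos.n) ∧ (w = w' ∨ (w' = ν w ∧ ν w' = w)))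
    constructor
    · rintro rfl
      refine ⟨fun h => hν' w (congrArg Prod.fst h).symm, Or.inr ⟨rfl, hν w⟩⟩
    · rintro ⟨h, h' | h'⟩
      · exact absurd (by rw [h']) h
      · exact h'.1
  · change w = w' ↔ ((w, Pos.n) ≠ (w', Pos.p) ∧ (w = w' ∨ (w' = ν w ∧ μ w' = w)))
    constructor
    · rintro rfl
      exact ⟨by simp, Or.inl rfl⟩
    · rintro ⟨h, h' | h'⟩
      · exact h'
      · exfalso
        have h4 : ν w' = w := by rw [h'.1, hν]
        exact h1 w' (h4.trans h'.2.symm)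
  · change w = w' ↔ ((w, Pos.n) ≠ (w', Pos.m) ∧ (w = w' ∨ (w' = ν w ∧ μ.symm w' = w)))
    constructor
    · rintro rfl
      exact ⟨by simp, Or.inl rfl⟩
    · rintro ⟨h, h' | h'⟩
      · exact h'
      · exfalso
        have h4 : ν w' = w := by rw [h'.1, hν]
        exact h2 w' (h4.trans h'.2.symm)
  · change w = w' ↔ ((w, Pos.p) ≠ (w', Pos.n) ∧ (w = w' ∨ (w' = μ w ∧ ν w' = w)))
    constructor
    · rintro rfl
      exact ⟨by simp, Or.inl rfl⟩
    · rintro ⟨h, h' | h'⟩
      · exact h'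
      · exfalso
        have h4 : w' = ν w := by rw [← h'.2, hν]
        exact h1 w (h4.symm.trans h'.1)
  · change False ↔ ((w, Pos.p) ≠ (w', Pos.p) ∧ (w = w' ∨ (w' = μ w ∧ μ w' = w)))
    constructor
    · exact False.elim
    · rintro ⟨h, h' | h'⟩
      · exact h (by rw [h'])
      · refine h3 w ?_
        rw [Equiv.eq_symm_apply, ← h'.1]
        exact h'.2
  · change (w = w' ∨ w' = μ w) ↔
      ((w, Pos.p) ≠ (w', Pos.m) ∧ (w = w' ∨ (w' = μ w ∧ μ.symm w' = w)))
    constructor
    · rintro (h | h)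
      · exact ⟨by simp, Or.inl h⟩
      · exact ⟨by simp, Or.inr ⟨h, by rw [h, Equiv.symm_apply_apply]⟩⟩
    · rintro ⟨_, h | h⟩
      · exact Or.inl h
      · exact Or.inr h.1
  · change w = w' ↔ ((w, Pos.m) ≠ (w', Pos.n) ∧ (w = w' ∨ (w' = μ.symm w ∧ ν w' = w)))
    constructor
    · rintro rfl
      exact ⟨by simp, Or.inl rfl⟩
    · rintro ⟨h, h' | h'⟩
      · exact h'
      · exfalso
        have h4 : w' = ν w := by rw [← h'.2, hν]
        exact h2 w (h4.symm.trans h'.1)
  · change (w = w' ∨ w = μ w') ↔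
      ((w, Pos.m) ≠ (w', Pos.p) ∧ (w = w' ∨ (w' = μ.symm w ∧ μ w' = w)))
    constructor
    · rintro (h | h)
      · exact ⟨by simp, Or.inl h⟩
      · exact ⟨by simp, Or.inr ⟨by rw [h, Equiv.symm_apply_apply], h.symm⟩⟩
    · rintro ⟨_, h | h⟩
      · exact Or.inl h
      · exact Or.inr h.2.symm
  · change False ↔ ((w, Pos.m) ≠ (w', Pos.m) ∧ (w = w' ∨ (w' = μ.symm w ∧ μ.symm w' = w)))
    constructor
    · exact False.elim
    · rintro ⟨h, h' | h'⟩
      · exact h (by rw [h'])
      · refine h3 w ?_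
        have h4 : μ w = w' := by
          rw [← h'.2, Equiv.apply_symm_apply]
        rw [h4, h'.1]

theorem z2 (x : ZMod 2) : x = 0 ∨ x = 1 := by revert x; decide

theorem z2_one {x y : ZMod 2} (h : x + y = 1) : y = 1 ↔ ¬ x = 1 := by
  revert h; revert x y; decide

theorem z2_three {x y z : ZMod 2} (h : x + y + z = 0) : x = 1 ↔ ¬ (y = 1 ↔ z = 1) := by
  revert h; revert x y z; decide

theorem truncation_decomp [Finite W] (H : SimpleGraph W) (hc : H.Connected)
    (hH : ∀ v, (H.neighborSet v).ncard = 3)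
    (hM : ∃ M : H.Subgraph, M.IsPerfectMatching) (h4 : 4 ∣ Nat.card W) :
    ∃ F₁ F₂ : SimpleGraph H.Dart, LinearForest 4 F₁ ∧ LinearForest 4 F₂ ∧
      F₁ ⊔ F₂ = truncation H ∧ Disjoint F₁ F₂ ∧ Nonempty (F₁ ≃g F₂) := by
  classical
  have := Fintype.ofFinite W
  obtain ⟨M, hM⟩ := hM
  have hMe : ∀ v, ∃! w, M.Adj v w := fun v => (Subgraph.isPerfectMatching_iff.1 hM) v
  have hMe' : ∀ v, ∃ w, M.Adj v w ∧ ∀ y, M.Adj v y → y = w := fun v => hMe v
  choose ν hν1 hν2 using hMe'
  have hν : ∀ w, ν (ν w) = w := fun w => (hν2 (ν w) w (hν1 w).symm).symm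
  have hνH : ∀ w, H.Adj w (ν w) := fun w => M.adj_sub (hν1 w)
  have hν' : ∀ w, ν w ≠ w := fun w => (hνH w).ne'
  -- the two-factor
  set F : SimpleGraph W :=
    { Adj := fun u v => H.Adj u v ∧ v ≠ ν u
      symm := ⟨fun u v h => ⟨h.1.symm, fun h' => h.2 (by rw [h', hν])⟩⟩
      loopless := ⟨fun v h => H.loopless.irrefl v h.1⟩ } with hF
  have hFadj : ∀ u v, F.Adj u v ↔ H.Adj u v ∧ v ≠ ν u := fun _ _ => Iff.rfl
  have hFdeg : ∀ v, (F.neighborSet v).ncard = 2 := by
    intro v
    have h1 : H.neighborSet v = insert (ν v) (F.neighborSet v) := by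
      ext x
      simp only [mem_neighborSet, Set.mem_insert_iff, hFadj]
      constructor
      · intro h
        by_cases hx : x = ν v
        · exact Or.inl hx
        · exact Or.inr ⟨h, hx⟩
      · rintro (rfl | h)
        · exact hνH v
        · exact h.1
    have h2 : ν v ∉ F.neighborSet v := fun h => ((hFadj _ _).1 h).2 rfl
    have h3 := hH v
    rw [h1, Set.ncard_insert_of_notMem h2 (Set.toFinite _)] at h3
    omega
  obtain ⟨m, hm⟩ := reg2_own hFdeg
  set μ : Equiv.Perm W := Equiv.ofBijective m (own_perm hFdeg hm) with hμdef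
  have hμm : ∀ w, μ w = m w := fun w => rfl
  have hFμ : ∀ w, F.Adj w (μ w) := fun w => by rw [hμm]; exact hm.1 w
  have hFμ' : ∀ w, F.Adj w (μ.symm w) := fun w => by
    have := (hFμ (μ.symm w)).symm
    rwa [Equiv.apply_symm_apply] at this
  have hμne : ∀ w, μ w ≠ w := fun w => (hFμ w).ne'
  have d1 : ∀ w, ν w ≠ μ w := fun w h => ((hFadj _ _).1 (hFμ w)).2 h.symm
  have d2 : ∀ w, ν w ≠ μ.symm w := fun w h => ((hFadj _ _).1 (hFμ' w)).2 h.symm
  have d3 : ∀ w, μ w ≠ μ.symm w := by
    intro w h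
    rw [Equiv.eq_symm_apply] at h
    rcases hm.2 w (μ w) (hFμ w) with h5 | h5
    · exact h5.2 h
    · exact h5.1 rfl
  have hFcases : ∀ u v, F.Adj u v → v = μ u ∨ v = μ.symm u := by
    intro u v h
    rcases hm.2 u v h with h5 | h5
    · exact Or.inl h5.1.symm
    · right
      rw [Equiv.eq_symm_apply]
      exact h5.2
  have hHcases : ∀ u v, H.Adj u v → v = ν u ∨ v = μ u ∨ v = μ.symm u := by
    intro u v h
    by_cases hv : v = ν u
    · exact Or.inl hv
    · exact Or.inr (hFcases u v ⟨h, hv⟩)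
  have hHμ : ∀ w, H.Adj w (μ w) := fun w => ((hFadj _ _).1 (hFμ w)).1
  have hHμ' : ∀ w, H.Adj w (μ.symm w) := fun w => ((hFadj _ _).1 (hFμ' w)).1
  -- the even orientation
  have hnb : ∀ w, H.neighborFinset w = {ν w, μ w, μ.symm w} := by
    intro w
    ext x
    simp only [mem_neighborFinset, Finset.mem_insert, Finset.mem_singleton]
    constructor
    · exact hHcases w x
    · rintro (rfl | rfl | rfl)
      · exact hνH w
      · exact hHμ w
      · exact hHμ' w
  have hdeg : ∀ w, H.degree w = 3 := by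
    intro w
    rw [← card_neighborFinset_eq_degree, hnb]
    rw [Finset.card_insert_of_notMem (by simp [d1 w, d2 w]),
      Finset.card_insert_of_notMem (by simpa using d3 w), Finset.card_singleton]
  obtain ⟨c, hc1, hc2⟩ := exists_even_orientation (H := H) hc (by
    simp only [hdeg, Finset.sum_const, Finset.card_univ, smul_eq_mul]
    rw [Nat.card_eq_fintype_card] at h4
    exact (Nat.modEq_zero_iff_dvd).2 (Dvd.dvd.mul_right h4 3))
  set P : W → Prop := fun w => c w (μ w) = 1 with hP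
  set Q : W → Prop := fun w => c w (μ.symm w) = 1 with hQ
  set N : W → Prop := fun w => c w (ν w) = 1 with hN
  have h1 : ∀ w, Q (μ w) ↔ ¬ P w := by
    intro w
    have h := z2_one (hc1 w (μ w) (hHμ w))
    simpa [hP, hQ] using h
  have h2 : ∀ w, N (ν w) ↔ ¬ N w := by
    intro w
    have h := z2_one (hc1 w (ν w) (hνH w))
    simpa [hN, hν] using h
  have h3 : ∀ w, N w ↔ ¬ (P w ↔ Q w) := by
    intro w
    have h := hc2 w
    rw [hnb, Finset.sum_insert (by simp [d1 w, d2 w]), Finset.sum_insert (by simpa using d3 w),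
      Finset.sum_singleton, ← add_assoc] at h
    exact z2_three h
  have hdec := tri_decomp (hν := hν) (hν' := hν') hμne h1 h2 h3
  -- the isomorphism
  have hfar : ∀ x : W × Pos, H.Adj x.1 (far ν μ x) := by
    rintro ⟨w, _ | _ | _⟩
    · exact hνH w
    · exact hHμ w
    · exact hHμ' w
  set φ : W × Pos → H.Dart := fun x => ⟨(x.1, far ν μ x), hfar x⟩ with hφ
  have hφ1 : ∀ x, (φ x).fst = x.1 := fun x => rfl
  have hφ2 : ∀ x, (φ x).snd = far ν μ x := fun x => rfl
  have hinj : Function.Injective φ := by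
    intro x y hxy
    have e1 : x.1 = y.1 := by rw [← hφ1 x, hxy, hφ1]
    have e2 : far ν μ x = far ν μ y := by rw [← hφ2 x, hxy, hφ2]
    rcases x with ⟨w, a⟩
    rcases y with ⟨w', b⟩
    have e3 : w = w' := e1
    subst e3
    rcases a with _ | _ | _ <;> rcases b with _ | _ | _
    · rfl
    · exact absurd e2 (d1 w)
    · exact absurd e2 (d2 w)
    · exact absurd e2.symm (d1 w)
    · rfl
    · exact absurd e2 (d3 w)
    · exact absurd e2.symm (d2 w)
    · exact absurd e2.symm (d3 w)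
    · rfl
  have hsurj : Function.Surjective φ := by
    rintro ⟨⟨u, v⟩, huv⟩
    rcases hHcases u v huv with h | h | h
    · refine ⟨(u, .n), ?_⟩
      subst h; rfl
    · refine ⟨(u, .p), ?_⟩
      subst h; rfl
    · refine ⟨(u, .m), ?_⟩
      subst h; rfl
  have hiso : tri ν μ hν hν' ≃g truncation H := by
    refine ⟨Equiv.ofBijective φ ⟨hinj, hsurj⟩, ?_⟩
    intro x y
    change (φ x ≠ φ y ∧ ((φ x).fst = (φ y).fst ∨ φ y = (φ x).symm)) ↔ tadj ν μ x y
    rw [tadj_iff hν hν' d1 d2 d3, hinj.ne_iff]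
    have e1 : φ y = (φ x).symm ↔ (y.1 = far ν μ x ∧ far ν μ y = x.1) := by
      constructor
      · intro h
        exact ⟨congrArg (fun d : H.Dart => d.fst) h, congrArg (fun d : H.Dart => d.snd) h⟩
      · rintro ⟨h, h'⟩
        apply Dart.ext
        exact Prod.ext h h'
    rw [e1]
  exact decomp_of_iso hiso hdec

end Pool.Agent.LinFor
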